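import Pool.Agent.Lib.H31.Ends.Cross

/-!
# The action of a finitely presented group on the glued set
-/

namespace Pool.Agent.Lib.H31.Ends

variable {n : ℕ} {G : Type*} [Group G] {Ω κ : Type*} [MulAction G Ω]

/-- The letters acting through a homomorphism from a free group. -/
def lact (φ : FreeGroup (Fin n) →* G) (s : Fin n × Bool) (y : Ω) : Ω :=
  φ (FreeGroup.mk [s]) • y

theorem run_lact (φ : FreeGroup (Fin n) →* G) (w : List (Fin n × Bool)) (y : Ω) :
    run (lact φ) w y = φ (FreeGroup.mk w) • y := by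
  induction w with
  | nil =>
    rw [run_nil, ← FreeGroup.one_eq_mk, map_one, one_smul]
  | cons s w ih =>
    rw [run_cons, ih, lact, smul_smul, ← map_mul, FreeGroup.mul_mk]
    rfl

theorem lact_inv (φ : FreeGroup (Fin n) →* G) (s : Fin n × Bool) (y : Ω) :
    lact φ (inv s) (lact φ s y) = y := by
  have h : FreeGroup.mk [inv s] = (FreeGroup.mk [s])⁻¹ := by
    rw [FreeGroup.inv_mk]
    rfl
  rw [lact, lact, h, map_inv, inv_smul_smul]

theorem mk_invw (w : List (Fin n × Bool)) : FreeGroup.mk (invw w) = (FreeGroup.mk w)⁻¹ := by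
  rw [FreeGroup.inv_mk]
  rfl

variable [Inhabited κ] {φ : FreeGroup (Fin n) →* G} {M : ℕ} {A A' : Set Ω} {b b' : κ → Ω}

/-- The glued set. -/
abbrev Glued (A A' : Set Ω) : Type _ := {p : Ω × ℤ // p.1 ∈ A ∧ p.1 ∉ A'}

/-- The action of the group on the glued set. -/
theorem exists_hom (hφ : Function.Surjective φ) {R : Set (FreeGroup (Fin n))}
    (hR : Subgroup.normalClosure R = φ.ker) (P : CutPair (lact φ) M A A' b b') (hM : 1 ≤ M)
    (hRM : ∀ r ∈ R, r.toWord.length ≤ M) :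
    ∃ ρ : G →* Equiv.Perm (Glued A A'), ∀ w p,
      ((ρ (φ (FreeGroup.mk w)) p : Glued A A') : Ω × ℤ) =
        run (glue (lact φ) A A' b b') w (p : Ω × ℤ) := by
  have hinv := fun s (p : Ω × ℤ) hp => P.glue_inv hM s (p := p) hp
  let e : Fin n → Equiv.Perm (Glued A A') := fun i =>
    { toFun := fun p => ⟨glue (lact φ) A A' b b' (i, true) p.1, P.glue_mem hM _ p.2⟩
      invFun := fun p => ⟨glue (lact φ) A A' b b' (i, false) p.1, P.glue_mem hM _ p.2⟩
      left_inv := fun p => Subtype.ext (hinv (i, true) p.1 p.2)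
      right_inv := fun p => Subtype.ext (hinv (i, false) p.1 p.2) }
  let F : FreeGroup (Fin n) →* Equiv.Perm (Glued A A') := FreeGroup.lift e
  have hF1 : ∀ s (p : Glued A A'), ((F (FreeGroup.mk [s]) p : Glued A A') : Ω × ℤ) =
      glue (lact φ) A A' b b' s p.1 := by
    rintro ⟨i, ε⟩ p
    have h1 : F (FreeGroup.mk [(i, ε)]) = cond ε (e i) (e i)⁻¹ := by
      simp only [F, FreeGroup.lift_mk, List.map_cons, List.map_nil, List.prod_cons,
        List.prod_nil, mul_one]
    rw [h1]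
    cases ε
    · rfl
    · rfl
  have hF : ∀ w (p : Glued A A'), ((F (FreeGroup.mk w) p : Glued A A') : Ω × ℤ) =
      run (glue (lact φ) A A' b b') w p.1 := by
    intro w p
    induction w with
    | nil =>
      rw [run_nil, ← FreeGroup.one_eq_mk, map_one]
      rfl
    | cons s w ih =>
      have h2 : FreeGroup.mk (s :: w) = FreeGroup.mk [s] * FreeGroup.mk w := by
        rw [FreeGroup.mul_mk]
        rfl
      rw [run_cons, h2, map_mul, Equiv.Perm.mul_apply, hF1, ih]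
  have hker : φ.ker ≤ F.ker := by
    rw [← hR]
    apply Subgroup.normalClosure_le_normal
    intro r hr
    rw [SetLike.mem_coe, MonoidHom.mem_ker]
    apply Equiv.ext
    intro p
    apply Subtype.ext
    have h3 : φ r = 1 := by
      have : r ∈ φ.ker := by
        rw [← hR]
        exact Subgroup.subset_normalClosure hr
      exact this
    rw [← FreeGroup.mk_toWord (x := r), hF]
    rw [P.run_relator hM r.toWord (hRM r hr) _ p.2]
    · rfl
    · intro y
      rw [run_lact, FreeGroup.mk_toWord, h3, one_smul]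
  refine ⟨φ.liftOfSurjective hφ ⟨F, hker⟩, fun w p => ?_⟩
  have h4 : φ.liftOfSurjective hφ ⟨F, hker⟩ (φ (FreeGroup.mk w)) = F (FreeGroup.mk w) :=
    φ.liftOfRightInverse_comp_apply _ (Function.rightInverse_surjInv hφ) ⟨F, hker⟩ _
  rw [h4, hF]

theorem height_le (P : CutPair (lact φ) M A A' b b') (hM : 1 ≤ M) (w : List (Fin n × Bool))
    {p : Ω × ℤ} (hp : p.1 ∈ A ∧ p.1 ∉ A') :
    (run (glue (lact φ) A A' b b') w p).2 ≤ p.2 + w.length := by
  induction w with
  | nil => simp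
  | cons s w ih =>
    have h1 := (P.glue_fst_le hM s (P.run_mem hM w hp)).1
    rw [run_cons, List.length_cons]
    push_cast
    linarith

/-- Shifting a point of the glued set. -/
def shift (k : ℤ) (p : Glued A A') : Glued A A' := ⟨(p.1.1, p.1.2 + k), p.2⟩

/-- The conclusion of the cut and paste argument: an action with a commuting translation and a
group element that translates a point. -/
structure Flow (φ : FreeGroup (Fin n) →* G) (X : Type*) where
  ρ : G →* Equiv.Perm X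
  ht : X → ℤ
  τ : ℤ → X → X
  x : X
  d : ℕ
  c : G
  E : Finset X
  hd : 1 ≤ d
  lip : ∀ w y, ht (ρ (φ (FreeGroup.mk w)) y) ≤ ht y + w.length
  ht_τ : ∀ k y, ht (τ k y) = ht y + k
  τ_zero : ∀ y, τ 0 y = y
  comm : ∀ g k y, ρ g (τ k y) = τ k (ρ g y)
  τ_τ : ∀ j k y, τ j (τ k y) = τ (k + j) y
  hc : ρ c x = τ d x
  cross : ∀ w y, ht y < 0 → 0 ≤ ht (ρ (φ (FreeGroup.mk w)) y) →
    ∃ w2 w1, w = w2 ++ w1 ∧ ρ (φ (FreeGroup.mk w1)) y ∈ E

/-- The conclusion of the cut and paste argument. -/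
theorem exists_flow (hφ : Function.Surjective φ) {R : Set (FreeGroup (Fin n))}
    (hR : Subgroup.normalClosure R = φ.ker) [Finite κ] (P : CutPair (lact φ) M A A' b b')
    (hM : 1 ≤ M) (hRM : ∀ r ∈ R, r.toWord.length ≤ M) {x0 : Ω}
    (hx0 : x0 ∉ A) (htr : ∀ y : Ω, ∃ g : G, g • x0 = y) (hne : A'.Nonempty)
    (hstate : state (lact φ) x0 A b = state (lact φ) x0 A' b') :
    Nonempty (Flow φ (Glued A A')) := by
  classical
  obtain ⟨ρ, hρ⟩ := exists_hom hφ hR P hM hRM
  obtain ⟨a, k, d, v, hd, hv⟩ := P.exists_translation hM hx0 (by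
    intro y
    obtain ⟨g, hg⟩ := htr y
    obtain ⟨f, rfl⟩ := hφ g
    refine ⟨f.toWord, ?_⟩
    rw [run_lact, FreeGroup.mk_toWord, hg]) hne hstate
  cases nonempty_fintype κ
  have hb : ∀ a k, ((b a, k) : Ω × ℤ).1 ∈ A ∧ ((b a, k) : Ω × ℤ).1 ∉ A' :=
    fun a k => ⟨P.b_mem a, P.b_notMem a⟩
  refine ⟨⟨ρ, fun p => p.1.2, shift, ⟨(b a, k), hb a k⟩, d, φ (FreeGroup.mk v),
    Finset.univ.image (fun a => (⟨(b a, 0), hb a 0⟩ : Glued A A')), hd, ?_, ?_, ?_, ?_, ?_, ?_,
    ?_⟩⟩
  · intro w y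
    show (ρ (φ (FreeGroup.mk w)) y : Glued A A').1.2 ≤ _
    rw [hρ]
    exact height_le P hM w y.2
  · intro k y
    rfl
  · intro y
    apply Subtype.ext
    show (y.1.1, y.1.2 + 0) = y.1
    rw [add_zero]
  · intro g k y
    obtain ⟨f, rfl⟩ := hφ g
    rw [← FreeGroup.mk_toWord (x := f)]
    apply Subtype.ext
    rw [hρ]
    show run (glue (lact φ) A A' b b') f.toWord (y.1.1, y.1.2 + k) = _
    rw [CutPair.run_shift]
    show _ = ((ρ (φ (FreeGroup.mk f.toWord)) y : Glued A A').1.1,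
      (ρ (φ (FreeGroup.mk f.toWord)) y : Glued A A').1.2 + k)
    rw [hρ]
  · intro j k y
    apply Subtype.ext
    show (y.1.1, y.1.2 + k + j) = (y.1.1, y.1.2 + (k + j))
    rw [add_assoc]
  · apply Subtype.ext
    rw [hρ]
    exact hv
  · intro w y hy1 hy2
    have h1 : (0 : ℤ) ≤ (run (glue (lact φ) A A' b b') w y.1).2 := by
      rw [← hρ]
      exact hy2
    obtain ⟨w2, w1, a', h2, h3⟩ := P.level hM w y.2 (k := 0) hy1 h1
    refine ⟨w2, w1, h2, ?_⟩
    rw [Finset.mem_image]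
    refine ⟨a', Finset.mem_univ _, ?_⟩
    apply Subtype.ext
    rw [hρ]
    exact h3.symm

namespace Flow

variable {X : Type*} (F : Flow φ X)

theorem c_τ (k : ℤ) : F.ρ F.c (F.τ k F.x) = F.τ (k + F.d) F.x := by
  rw [F.comm, F.hc, F.τ_τ, add_comm]

theorem zpow_shift {y : X} {g : G} {D : ℤ} (h : F.ρ g y = F.τ D y) (r : ℤ) :
    F.ρ (g ^ r) y = F.τ (r * D) y := by
  have h1 : ∀ k, F.ρ g (F.τ k y) = F.τ (k + D) y := by
    intro k
    rw [F.comm, h, F.τ_τ, add_comm]
  have h2 : ∀ k, F.ρ g⁻¹ (F.τ k y) = F.τ (k - D) y := by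
    intro k
    rw [map_inv, Equiv.Perm.inv_eq_iff_eq, h1, sub_add_cancel]
  induction r using Int.induction_on with
  | zero =>
    rw [zpow_zero, map_one, zero_mul, F.τ_zero]
    rfl
  | succ i ih =>
    rw [add_comm (i : ℤ) 1, zpow_one_add, map_mul, Equiv.Perm.mul_apply, ih, h1]
    congr 1
    ring
  | pred i ih =>
    rw [sub_eq_add_neg, add_comm (-(i : ℤ)) (-1), zpow_add, zpow_neg_one, map_mul,
      Equiv.Perm.mul_apply, ih, h2]
    congr 1
    ring

theorem pow_shift {y : X} {g : G} {D : ℤ} (h : F.ρ g y = F.τ D y) (r : ℕ) :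
    F.ρ (g ^ r) y = F.τ (r * D) y := by
  have := F.zpow_shift h r
  rwa [zpow_natCast] at this

theorem lower {r : ℕ} {w : List (Fin n × Bool)} (h : F.c ^ r = φ (FreeGroup.mk w)) :
    r ≤ w.length := by
  have h1 := F.lip w F.x
  rw [← h, F.pow_shift F.hc, F.ht_τ] at h1
  have h2 := F.hd
  have h3 : (r : ℤ) * F.d ≤ w.length := by linarith
  have h4 : r * F.d ≤ w.length := by exact_mod_cast h3
  nlinarith

theorem zpow_ne {g : G} {y : X} {D : ℤ} (hD : 0 < D) (h : F.ρ g y = F.τ D y) {r : ℤ}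
    (hr : r ≠ 0) : F.ρ (g ^ r) y ≠ y := by
  intro h1
  rw [F.zpow_shift h] at h1
  have h2 := F.ht_τ (r * D) y
  rw [h1] at h2
  have h3 : r * D = 0 := by linarith
  rcases mul_eq_zero.1 h3 with h4 | h4
  · exact hr h4
  · omega

theorem flatten_replicate (v : List (Fin n × Bool)) (e : ℕ) :
    φ (FreeGroup.mk (List.replicate e v).flatten) = (φ (FreeGroup.mk v)) ^ e := by
  induction e with
  | zero =>
    rw [List.replicate_zero, List.flatten_nil, ← FreeGroup.one_eq_mk, map_one, pow_zero]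
  | succ e ih =>
    rw [List.replicate_succ, List.flatten_cons, ← FreeGroup.mul_mk, map_mul, ih, pow_succ']

theorem roots (hφ : Function.Surjective φ) : ∃ K : ℕ, ∀ (h : G) (m e : ℕ), 0 < e →
    h ^ m = F.c ^ e → m ≤ K * e := by
  classical
  obtain ⟨f, hf⟩ := hφ F.c
  obtain ⟨v, hv⟩ : ∃ v, φ (FreeGroup.mk v) = F.c := ⟨f.toWord, by rw [FreeGroup.mk_toWord, hf]⟩
  refine ⟨(v.length + 1) * F.E.card, fun h m e he hm => ?_⟩
  set u := (List.replicate e v).flatten with hu
  have hu1 : φ (FreeGroup.mk u) = F.c ^ e := by rw [hu, flatten_replicate, hv]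
  have hu2 : u.length = e * v.length := by
    rw [hu, List.length_flatten]
    simp
  set D : ℤ := e * F.d with hD
  have hD0 : 0 < D := by
    have h1 := F.hd
    rw [hD]
    positivity
  have hcx : F.ρ (h ^ m) F.x = F.τ D F.x := by rw [hm, F.pow_shift F.hc]
  have hy : ∀ i : ℕ, F.ρ (h ^ m) (F.ρ (h ^ i) F.x) = F.τ D (F.ρ (h ^ i) F.x) := by
    intro i
    rw [← Equiv.Perm.mul_apply, ← map_mul, ← pow_add, add_comm, pow_add, map_mul,
      Equiv.Perm.mul_apply, hcx, F.comm]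
  have hex : ∀ i : ℕ, ∃ (r : ℤ) (j : ℕ) (z : X), j ≤ u.length ∧ z ∈ F.E ∧
      ∀ w2 w1, u = w2 ++ w1 → w1.length = j →
        F.ρ (φ (FreeGroup.mk w1)) (F.ρ ((h ^ m) ^ r) (F.ρ (h ^ i) F.x)) = z := by
    intro i
    set y := F.ρ (h ^ i) F.x with hyi
    set q := F.ht y / D with hq
    have hr1 := Int.emod_nonneg (F.ht y) hD0.ne'
    have hr2 := Int.emod_lt_of_pos (F.ht y) hD0
    have hr3 := Int.mul_ediv_add_emod (F.ht y) D
    rw [← hq] at hr3
    have h1 : F.ρ ((h ^ m) ^ (-q - 1)) y = F.τ ((-q - 1) * D) y := F.zpow_shift (hy i) _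
    have h2 : F.ht (F.ρ ((h ^ m) ^ (-q - 1)) y) < 0 := by
      rw [h1, F.ht_τ]
      nlinarith
    have h3 : 0 ≤ F.ht (F.ρ (φ (FreeGroup.mk u)) (F.ρ ((h ^ m) ^ (-q - 1)) y)) := by
      rw [hu1, ← hm, h1, F.comm, hy i, F.τ_τ, F.ht_τ]
      nlinarith
    obtain ⟨w2, w1, h4, h5⟩ := F.cross u _ h2 h3
    refine ⟨-q - 1, w1.length, _, ?_, h5, ?_⟩
    · rw [h4, List.length_append]
      omega
    · intro w2' w1' h6 h7
      have h8 := List.append_inj' (h4.symm.trans h6) h7.symm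
      rw [h8.2]
  choose r j z hj hz hw using hex
  by_contra hcon
  push Not at hcon
  have hcard : (u.length + 1) * F.E.card < m := by
    have h1 : (u.length + 1) * F.E.card ≤ (v.length + 1) * F.E.card * e := by
      rw [hu2]
      nlinarith [Nat.zero_le (F.E.card), Nat.zero_le (v.length), mul_le_mul_right he F.E.card]
    omega
  obtain ⟨i1, hi1, i2, hi2, hne, heq⟩ := Finset.exists_ne_map_eq_of_card_lt_of_maps_to
    (s := Finset.range m) (t := Finset.range (u.length + 1) ×ˢ F.E)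
    (f := fun i => (j i, z i)) (by
      rw [Finset.card_product, Finset.card_range, Finset.card_range]
      exact hcard)
    (by
      intro i _
      simp only [Finset.coe_product, Set.mem_prod, Finset.mem_coe, Finset.mem_range]
      exact ⟨by have := hj i; omega, hz i⟩)
  simp only [Prod.mk.injEq] at heq
  obtain ⟨hj12, hz12⟩ := heq
  rw [Finset.mem_range] at hi1 hi2
  -- the suffix of length `j`
  set w1 := u.drop (u.length - j i1) with hw1
  have hw1l : w1.length = j i1 := by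
    rw [hw1, List.length_drop]
    have := hj i1
    omega
  have hsplit : u = u.take (u.length - j i1) ++ w1 := (List.take_append_drop _ _).symm
  have e1 := hw i1 _ _ hsplit hw1l
  have e2 := hw i2 _ _ hsplit (hw1l.trans hj12)
  rw [← hz12] at e2
  have e3 := (F.ρ (φ (FreeGroup.mk w1))).injective (e1.trans e2.symm)
  have e4 : F.ρ (h ^ ((i1 : ℤ) - i2 + m * (r i1 - r i2))) F.x = F.x := by
    have e5 : h ^ ((i1 : ℤ) - i2 + m * (r i1 - r i2)) =
        ((h ^ m) ^ (r i2) * h ^ i2)⁻¹ * ((h ^ m) ^ (r i1) * h ^ i1) := by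
      simp only [← zpow_natCast h, ← zpow_mul, ← zpow_add, ← zpow_neg]
      congr 1
      ring
    rw [e5, map_mul, Equiv.Perm.mul_apply, map_inv, Equiv.Perm.inv_eq_iff_eq, map_mul,
      Equiv.Perm.mul_apply, e3, map_mul, Equiv.Perm.mul_apply]
  have hq0 : (i1 : ℤ) - i2 + m * (r i1 - r i2) ≠ 0 := by
    intro h0
    have h1 : (i1 : ℤ) - i2 = m * (r i2 - r i1) := by linarith
    have h2 : |(i1 : ℤ) - i2| < m := by
      rw [abs_lt]
      constructor <;> omega
    have h3 : (i1 : ℤ) - i2 = 0 := by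
      apply Int.eq_zero_of_abs_lt_dvd (m := (m : ℤ)) ⟨_, h1⟩ h2
    apply hne
    omega
  have e6 : F.ρ ((h ^ m) ^ ((i1 : ℤ) - i2 + m * (r i1 - r i2))) F.x = F.x := by
    set Q := (i1 : ℤ) - i2 + m * (r i1 - r i2) with hQ
    have e7 : (h ^ m) ^ Q = (h ^ Q) ^ m := by
      rw [← zpow_natCast h, ← zpow_natCast (h ^ Q), ← zpow_mul, ← zpow_mul, mul_comm]
    rw [e7]
    have e8 : ∀ k : ℕ, F.ρ ((h ^ Q) ^ k) F.x = F.x := by
      intro k
      induction k with
      | zero => rw [pow_zero, map_one]; rfl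
      | succ k ih => rw [pow_succ, map_mul, Equiv.Perm.mul_apply, e4, ih]
    exact e8 m
  exact F.zpow_ne hD0 hcx hq0 e6

end Flow

end Pool.Agent.Lib.H31.Ends
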