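import Pool.Agent.Lib.H31.Ends.Act

/-!
# Long chains of small cuts contain two cuts of the same type
-/

namespace Pool.Agent.Lib.H31.Ends

universe u

variable {n : ℕ} {G : Type u} [Group G]

/-- A long chain of nested cuts with small letter boundaries. -/
structure LChain (φ : FreeGroup (Fin n) →* G) {Ω : Type u} [MulAction G Ω] (K N : ℕ)
    (A : ℕ → Set Ω) : Prop where
  step : ∀ i < N, ∀ y ∈ A (i + 1), y ∈ A i ∧ ∀ s, lact φ s y ∈ A i
  fin : ∀ i ≤ N, {y | y ∈ A i ∧ ∃ s, lact φ s y ∉ A i}.Finite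
  card : ∀ i ≤ N, {y | y ∈ A i ∧ ∃ s, lact φ s y ∉ A i}.ncard ≤ K
  ne : (A N).Nonempty
  ne_univ : A 0 ≠ Set.univ

theorem exists_enum {Ω : Type u} {S : Set Ω} (hS : S.Finite) (hne : S.Nonempty) {K : ℕ}
    (hK : S.ncard ≤ K) : ∃ b : Fin (K + 1) → Ω, ∀ y, (∃ a, b a = y) ↔ y ∈ S := by
  classical
  obtain ⟨y0, hy0⟩ := hne
  have : Finite S := hS
  have h1 : Nat.card S ≤ K := hK
  let e : S ≃ Fin (Nat.card S) := Finite.equivFin S
  refine ⟨fun a => if h : (a : ℕ) < Nat.card S then (e.symm ⟨a, h⟩ : Ω) else y0, fun y => ?_⟩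
  constructor
  · rintro ⟨a, rfl⟩
    dsimp only
    split_ifs with h
    · exact (e.symm ⟨a, h⟩).2
    · exact hy0
  · intro hy
    have h2 := (e ⟨y, hy⟩).2
    refine ⟨⟨e ⟨y, hy⟩, by omega⟩, ?_⟩
    dsimp only
    rw [dif_pos h2]
    have : (⟨((e ⟨y, hy⟩ : Fin (Nat.card S)) : ℕ), h2⟩ : Fin (Nat.card S)) = e ⟨y, hy⟩ := rfl
    rw [this, Equiv.symm_apply_apply]

namespace LChain

variable {φ : FreeGroup (Fin n) →* G} {Ω : Type u} [MulAction G Ω] {K N : ℕ} {A : ℕ → Set Ω}

theorem anti (C : LChain φ K N A) {i j : ℕ} (hij : i ≤ j) (hj : j ≤ N) : A j ⊆ A i := by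
  induction j, hij using Nat.le_induction with
  | base => exact le_refl _
  | succ j hij ih =>
    intro y hy
    exact ih (by omega) (C.step j (by omega) y hy).1

theorem run_mem (C : LChain φ K N A) (w : List (Fin n × Bool)) {i : ℕ}
    (h : i + w.length ≤ N) {y : Ω} (hy : y ∈ A (i + w.length)) : run (lact φ) w y ∈ A i := by
  induction w generalizing i with
  | nil => exact hy
  | cons s w ih =>
    rw [List.length_cons] at h hy
    have h1 := ih (i := i + 1) (by omega) (by rwa [show i + 1 + w.length = i + (w.length + 1) by ring])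
    exact (C.step i (by omega) _ h1).2 s

theorem run_notMem (C : LChain φ K N A) (w : List (Fin n × Bool)) {i : ℕ}
    (h : i + w.length ≤ N) {y : Ω} (hy : y ∉ A i) : run (lact φ) w y ∉ A (i + w.length) := by
  intro h1
  have h2 := C.run_mem (invw w) (i := i) (y := run (lact φ) w y) (by rwa [length_invw])
    (by rwa [length_invw])
  rw [run_invw (lact_inv φ)] at h2
  exact hy h2

theorem boundary_ne (C : LChain φ K N A) (hφ : Function.Surjective φ)
    (htr : ∀ x y : Ω, ∃ g : G, g • x = y) {i : ℕ} (hi : i ≤ N) :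
    {y | y ∈ A i ∧ ∃ s, lact φ s y ∉ A i}.Nonempty := by
  by_contra hcon
  rw [Set.not_nonempty_iff_eq_empty] at hcon
  have h1 : ∀ y ∈ A i, ∀ s, lact φ s y ∈ A i := by
    intro y hy s
    by_contra h
    have : y ∈ ({y | y ∈ A i ∧ ∃ s, lact φ s y ∉ A i} : Set Ω) := ⟨hy, s, h⟩
    rw [hcon] at this
    exact this
  obtain ⟨y0, hy0⟩ := C.ne
  have hy0' := C.anti hi le_rfl hy0
  have h2 : ∀ w, run (lact φ) w y0 ∈ A i := by
    intro w
    induction w with
    | nil => exact hy0'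
    | cons s w ih => exact h1 _ ih s
  apply C.ne_univ
  rw [Set.eq_univ_iff_forall]
  intro y
  obtain ⟨g, hg⟩ := htr y0 y
  obtain ⟨f, rfl⟩ := hφ g
  have h3 := h2 f.toWord
  rw [run_lact, FreeGroup.mk_toWord, hg] at h3
  exact C.anti (Nat.zero_le i) hi h3

end LChain

/-- The type of local types. -/
abbrev LType (n K M : ℕ) : Type :=
  (Fin (K + 1) → Fin (K + 1) → {w : List (Fin n × Bool) // w.length ≤ M} → Prop) ×
    (Fin (K + 1) → {w : List (Fin n × Bool) // w.length ≤ M} → Prop) ×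
      Set (Set (Fin (K + 1) × (Fin n × Bool)))

instance (n M : ℕ) : Finite {w : List (Fin n × Bool) // w.length ≤ M} :=
  (List.finite_length_le (Fin n × Bool) M).to_subtype

instance (n K M : ℕ) : Finite (LType n K M) := by
  unfold LType
  infer_instance

/-- In a finitely presented group, a long chain gives a flow. -/
theorem exists_flow_of_chain {φ : FreeGroup (Fin n) →* G} (hφ : Function.Surjective φ)
    {R : Set (FreeGroup (Fin n))} (hRf : R.Finite) (hR : Subgroup.normalClosure R = φ.ker)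
    (K : ℕ) : ∃ N : ℕ, ∀ (Ω : Type u) [MulAction G Ω], (∀ x y : Ω, ∃ g : G, g • x = y) →
      ∀ A : ℕ → Set Ω, LChain φ K N A → ∃ X : Type u, Nonempty (Flow φ X) := by
  classical
  obtain ⟨M, hM, hRM⟩ : ∃ M : ℕ, 1 ≤ M ∧ ∀ r ∈ R, r.toWord.length ≤ M := by
    obtain ⟨M, hM⟩ := (hRf.image (fun r => r.toWord.length)).bddAbove
    exact ⟨M + 1, by omega, fun r hr => (hM ⟨r, hr, rfl⟩).trans (Nat.le_succ M)⟩
  refine ⟨Nat.card (LType n K M) * (M + 1), fun Ω _ htr A C => ?_⟩
  set c := Nat.card (LType n K M) with hc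
  obtain ⟨x0, hx0⟩ : ∃ x0, x0 ∉ A 0 := by
    by_contra h
    push Not at h
    exact C.ne_univ (Set.eq_univ_iff_forall.2 h)
  have hle : ∀ i : Fin (c + 1), (i : ℕ) * (M + 1) ≤ c * (M + 1) := fun i =>
    Nat.mul_le_mul_right _ (Nat.lt_succ_iff.1 i.2)
  have h1 : ∀ i : Fin (c + 1), ∃ b : Fin (K + 1) → Ω, ∀ y, (∃ a, b a = y) ↔
      y ∈ A (i * (M + 1)) ∧ ∃ s, lact φ s y ∉ A (i * (M + 1)) := fun i =>
    exists_enum (C.fin _ (hle i)) (C.boundary_ne hφ htr (hle i)) (C.card _ (hle i))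
  choose b hb using h1
  let T : Fin (c + 1) → LType n K M := fun i =>
    (fun a a' w => run (lact φ) w.1 (b i a) = b i a',
      fun a w => run (lact φ) w.1 (b i a) ∈ A (i * (M + 1)),
      state (lact φ) x0 (A (i * (M + 1))) (b i))
  cases nonempty_fintype (LType n K M)
  obtain ⟨i1, i2, hne, hT⟩ := Fintype.exists_ne_map_eq_of_card_lt T (by
    rw [Fintype.card_fin, hc, Nat.card_eq_fintype_card]
    omega)
  have main : ∀ i j : Fin (c + 1), i < j → T i = T j → ∃ X : Type u, Nonempty (Flow φ X) := by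
    intro i j hij hT
    have hij' : (i : ℕ) + 1 ≤ j := hij
    have hijM : (i : ℕ) * (M + 1) + (M + 1) ≤ j * (M + 1) := by
      have := Nat.mul_le_mul_right (M + 1) hij'
      linarith [Nat.succ_mul (i : ℕ) (M + 1)]
    simp only [T, Prod.mk.injEq] at hT
    obtain ⟨hT1, hT2, hT3⟩ := hT
    have hi := hle i
    have hj := hle j
    have P : CutPair (lact φ) M (A (i * (M + 1))) (A (j * (M + 1))) (b i) (b j) := by
      refine ⟨lact_inv φ, C.anti (by omega) hj, hb i, hb j, ?_, ?_, ?_, ?_⟩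
      · intro a a' w hw
        have := congrFun (congrFun (congrFun hT1 a) a') ⟨w, hw⟩
        exact iff_of_eq this
      · intro a w hw
        have := congrFun (congrFun hT2 a) ⟨w, hw⟩
        exact iff_of_eq this
      · intro a w hw h
        obtain ⟨h2, s, h3⟩ := (hb i (b i a)).1 ⟨a, rfl⟩
        have h4 : b i a ∉ A (i * (M + 1) + 1) := fun h4 =>
          h3 ((C.step _ (by omega) _ h4).2 s)
        have h5 := C.run_notMem w (i := i * (M + 1) + 1) (by omega) h4
        exact h5 (C.anti (by omega) hj h)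
      · intro a w hw
        have h2 := ((hb j (b j a)).1 ⟨a, rfl⟩).1
        exact C.run_mem w (by omega) (C.anti (by omega) hj h2)
    refine ⟨_, exists_flow hφ hR P hM hRM (x0 := x0) ?_ (fun y => htr x0 y) ?_ hT3⟩
    · exact fun h => hx0 (C.anti (Nat.zero_le _) hi h)
    · obtain ⟨y, hy⟩ := C.ne
      exact ⟨y, C.anti hj le_rfl hy⟩
  rcases lt_or_gt_of_ne hne with h | h
  · exact main i1 i2 h hT
  · exact main i2 i1 h hT.symm

end Pool.Agent.Lib.H31.Ends
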