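import Pool.Agent.Lib.H31.Ends.Glue

/-!
# Orbits of the glued system are unbounded
-/

namespace Pool.Agent.Lib.H31.Ends

variable {ι Ω κ : Type*}

/-- The unions of connected components of the complement of `A` that contain `x0`. -/
def LeftSet (st : ι × Bool → Ω → Ω) (x0 : Ω) (A : Set Ω) (X : Set Ω) : Prop :=
  (∀ y ∈ X, y ∉ A) ∧ x0 ∈ X ∧ ∀ y ∈ X, ∀ s, st s y ∉ A → st s y ∈ X

/-- The connectivity state of a cut, seen from the left. -/
def state (st : ι × Bool → Ω → Ω) (x0 : Ω) (A : Set Ω) (b : κ → Ω) :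
    Set (Set (κ × (ι × Bool))) :=
  {Q | ∃ X, LeftSet st x0 A X ∧ Q = {q | st q.2 (b q.1) ∈ X}}

namespace CutPair

variable [Inhabited κ] {st : ι × Bool → Ω → Ω} {M : ℕ} {A A' : Set Ω} {b b' : κ → Ω}

/-- An invariant set containing all the negative copies is unbounded above. -/
theorem crossing (P : CutPair st M A A' b b') (hM : 1 ≤ M) {x0 : Ω}
    (hx0 : x0 ∉ A) (htr : ∀ y, ∃ w, run st w x0 = y) (hne : A'.Nonempty)
    (hstate : state st x0 A b = state st x0 A' b') (V : Set (Ω × ℤ))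
    (hV : ∀ p ∈ V, p.1 ∈ A → p.1 ∉ A' → ∀ s, glue st A A' b b' s p ∈ V)
    (hneg : ∀ y, y ∈ A → y ∉ A' → ∀ n : ℤ, n < 0 → (y, n) ∈ V) (N : ℕ) :
    ∃ y, y ∈ A ∧ y ∉ A' ∧ ∃ n : ℤ, (N : ℤ) ≤ n ∧ (y, n) ∈ V := by
  by_contra hcon
  push Not at hcon
  have h1 : ∀ s : ι × Bool, ([s] : List (ι × Bool)).length ≤ M := fun s => by simpa using hM
  have key : ∀ n : ℕ, {q : κ × (ι × Bool) | st q.2 (b' q.1) ∉ A' ∧
      (st q.2 (b' q.1), (n : ℤ) - 1) ∈ V} ∈ state st x0 A b := by
    intro n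
    induction n with
    | zero =>
      refine ⟨Aᶜ, ⟨fun y hy => hy, hx0, fun y _ s hs => hs⟩, ?_⟩
      ext ⟨a, s⟩
      have h2 := P.mem a [s] (h1 s)
      simp only [run_cons, run_nil] at h2
      simp only [Set.mem_ofPred_eq, Set.mem_compl_iff]
      rw [h2]
      constructor
      · exact fun h => h.1
      · intro h
        exact ⟨h, hneg _ (P.far' a [s] (h1 s)) h _ (by norm_num)⟩
    | succ n ih =>
      rw [hstate]
      obtain ⟨X, ⟨hX1, hX2, hX3⟩, hQ⟩ := ih
      have hQ' : ∀ a s, (st s (b' a) ∉ A' ∧ (st s (b' a), (n : ℤ) - 1) ∈ V) ↔ st s (b a) ∈ X :=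
        fun a s => Set.ext_iff.1 hQ (a, s)
      refine ⟨X ∪ {u | u ∈ A ∧ u ∉ A' ∧ (u, (n : ℤ)) ∈ V}, ⟨?_, Or.inl hX2, ?_⟩, ?_⟩
      · rintro y (hy | hy)
        · exact fun h => hX1 y hy (P.sub h)
        · exact hy.2.1
      · rintro y (hy | hy) s hs
        · by_cases h2 : st s y ∈ A
          · right
            refine ⟨h2, hs, ?_⟩
            have hyA := hX1 y hy
            obtain ⟨a, ha⟩ := (P.bA (st s y)).2 ⟨h2, inv s, by rwa [P.hst]⟩
            have h3 : st (inv s) (b a) ∈ X := by rw [ha, P.hst]; exact hy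
            obtain ⟨h4, h5⟩ := (hQ' a (inv s)).2 h3
            have h6 : st (inv s) (b' a) ∈ A := P.far' a [inv s] (h1 _)
            have h7 := hV _ h5 h6 h4 s
            rw [P.glue_up ((n : ℤ) - 1) (a := a) (P.hst' s (b' a))] at h7
            rw [← ha]
            simpa using h7
          · exact Or.inl (hX3 y hy s h2)
        · obtain ⟨hy1, hy2, hy3⟩ := hy
          have h7 := hV _ hy3 hy1 hy2 s
          rcases P.cases hM s hy1 hy2 (n : ℤ) with ⟨a, ha, h⟩ | ⟨h4, h5, h⟩ | ⟨a, ha, h0, h4, h5, h⟩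
          · exact absurd (by rw [ha]; exact P.b'_mem a) hs
          · rw [h] at h7
            exact Or.inr ⟨h4, h5, h7⟩
          · rw [h] at h7
            left
            rw [ha]
            exact (hQ' a s).1 ⟨h5, h7⟩
      · ext ⟨a, s⟩
        simp only [Set.mem_ofPred_eq, Set.mem_union]
        have h2 : st s (b' a) ∈ A := P.far' a [s] (h1 s)
        constructor
        · rintro ⟨h3, h4⟩
          right
          refine ⟨h2, h3, ?_⟩
          simpa using h4
        · rintro (h3 | ⟨_, h3, h4⟩)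
          · exact absurd h2 (hX1 _ h3)
          · refine ⟨h3, ?_⟩
            simpa using h4
  have h2 := key (N + 1)
  rw [hstate] at h2
  obtain ⟨X, ⟨hX1, hX2, hX3⟩, hQ⟩ := h2
  have hQ' : ∀ a s, st s (b' a) ∉ X := by
    intro a s h
    have h3 := (Set.ext_iff.1 hQ (a, s)).2 h
    obtain ⟨h4, h5⟩ := h3
    have h6 := hcon (st s (b' a)) (P.far' a [s] (h1 s)) h4 ((N + 1 : ℕ) - 1 : ℤ) (by push_cast; simp)
    exact h6 h5
  have hcl : ∀ y ∈ X, ∀ s, st s y ∈ X := by
    intro y hy s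
    by_cases h3 : st s y ∈ A'
    · exfalso
      obtain ⟨a, ha⟩ := (P.bA' (st s y)).2 ⟨h3, inv s, by rw [P.hst]; exact hX1 y hy⟩
      apply hQ' a (inv s)
      rw [ha, P.hst]
      exact hy
    · exact hX3 y hy s h3
  have hall : ∀ w, run st w x0 ∈ X := by
    intro w
    induction w with
    | nil => exact hX2
    | cons s w ih => exact hcl _ ih s
  obtain ⟨y, hy⟩ := hne
  obtain ⟨w, rfl⟩ := htr y
  exact hX1 _ (hall w) hy

/-- A path going up through a level passes through a boundary point. -/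
theorem level (P : CutPair st M A A' b b') (hM : 1 ≤ M) (w : List (ι × Bool))
    {q : Ω × ℤ} (hq : q.1 ∈ A ∧ q.1 ∉ A') {k : ℤ} (h1 : q.2 < k)
    (h2 : k ≤ (run (glue st A A' b b') w q).2) :
    ∃ w2 w1 a, w = w2 ++ w1 ∧ run (glue st A A' b b') w1 q = (b a, k) := by
  induction w with
  | nil => exact absurd h2 (by simpa using h1)
  | cons s w ih =>
    by_cases h3 : k ≤ (run (glue st A A' b b') w q).2
    · obtain ⟨w2, w1, a, h4, h5⟩ := ih h3
      exact ⟨s :: w2, w1, a, by rw [h4]; rfl, h5⟩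
    · have hm := P.run_mem hM w hq
      rw [run_cons] at h2
      obtain ⟨y, n, hyn⟩ : ∃ y n, run (glue st A A' b b') w q = (y, n) := ⟨_, _, rfl⟩
      rw [hyn] at h2 h3 hm
      dsimp only at h3
      rcases P.cases hM s hm.1 hm.2 n with ⟨a, ha, h⟩ | ⟨h4, h5, h⟩ | ⟨a, ha, h0, h4, h5, h⟩
      · refine ⟨[], s :: w, a, rfl, ?_⟩
        rw [run_cons, hyn, h]
        rw [h] at h2
        dsimp only at h2
        rw [show n + 1 = k by omega]
      · rw [h] at h2
        dsimp only at h2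
        omega
      · rw [h] at h2
        dsimp only at h2
        omega

/-- The glued system has an orbit that contains a point and a translate of it. -/
theorem exists_translation [Finite κ] (P : CutPair st M A A' b b') (hM : 1 ≤ M) {x0 : Ω}
    (hx0 : x0 ∉ A) (htr : ∀ y, ∃ w, run st w x0 = y) (hne : A'.Nonempty)
    (hstate : state st x0 A b = state st x0 A' b') :
    ∃ (a : κ) (k : ℤ) (d : ℕ) (v : List (ι × Bool)), 1 ≤ d ∧
      run (glue st A A' b b') v (b a, k) = (b a, k + d) := by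
  have hst := P.hst
  let V : Set (Ω × ℤ) := {p | ∃ w q, (q.1 ∈ A ∧ q.1 ∉ A') ∧ q.2 < 0 ∧
    p = run (glue st A A' b b') w q}
  obtain ⟨y, hy1, hy2, n, hn, w, q, hq, hq0, hw⟩ := P.crossing hM hx0 htr hne hstate V
    (by
      rintro p ⟨w, q, hq, hq0, rfl⟩ _ _ s
      exact ⟨s :: w, q, hq, hq0, rfl⟩)
    (fun y hy hy' n hn => ⟨[], (y, n), ⟨hy, hy'⟩, hn, rfl⟩) (Nat.card κ)
  have h1 : ∀ k : Fin (Nat.card κ + 1), ∃ (a : κ) (w1 : List (ι × Bool)),
      run (glue st A A' b b') w1 q = (b a, (k : ℤ)) := by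
    intro k
    have h2 : ((k : ℕ) : ℤ) ≤ (run (glue st A A' b b') w q).2 := by
      rw [← hw]
      have := k.2
      dsimp only
      omega
    obtain ⟨_, w1, a, _, h3⟩ := P.level hM w hq (k := (k : ℤ)) (by omega) h2
    exact ⟨a, w1, h3⟩
  choose f g hf using h1
  cases nonempty_fintype κ
  obtain ⟨k1, k2, hne', hk⟩ := Fintype.exists_ne_map_eq_of_card_lt f (by
    rw [Fintype.card_fin, Nat.card_eq_fintype_card]
    omega)
  have main : ∀ k1 k2 : Fin (Nat.card κ + 1), f k1 = f k2 → k1 < k2 →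
      ∃ (a : κ) (k : ℤ) (d : ℕ) (v : List (ι × Bool)), 1 ≤ d ∧
      run (glue st A A' b b') v (b a, k) = (b a, k + d) := by
    intro k1 k2 hk hlt
    have hlt' : (k1 : ℕ) < k2 := hlt
    refine ⟨f k1, (k1 : ℤ), (k2 : ℕ) - k1, g k2 ++ invw (g k1), by omega, ?_⟩
    rw [run_append, ← hf k1, P.run_invw_glue hM (g k1) hq, hf k2, hk]
    congr 1
    omega
  rcases lt_or_gt_of_ne hne' with h | h
  · exact main k1 k2 hk h
  · exact main k2 k1 hk.symm h

end CutPair

end Pool.Agent.Lib.H31.Ends
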