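import Mathlib

/-!
# Almost invariant sets and elements translating them
-/

namespace Pool.Agent.Lib.H31.Ends

variable {G : Type*} [Group G]

/-- Almost invariant sets (for left multiplication). -/
def AI (W : Set G) : Prop := ∀ t : G, {y | ¬ (y ∈ W ↔ t * y ∈ W)}.Finite

theorem AI.compl {W : Set G} (h : AI W) : AI Wᶜ := by
  intro t
  refine (h t).subset ?_
  intro y hy
  simp only [Set.mem_ofPred_eq, Set.mem_compl_iff] at hy ⊢
  tauto

/-- Right translates of almost invariant sets. -/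
def rtr (W : Set G) (g : G) : Set G := {y | y * g ∈ W}

theorem AI.rtr {W : Set G} (h : AI W) (g : G) : AI (rtr W g) := by
  intro t
  have h1 := (h t).preimage (f := fun y => y * g) (mul_left_injective g).injOn
  refine h1.subset ?_
  intro y hy
  simp only [Set.mem_ofPred_eq, Set.mem_preimage, Ends.rtr] at hy ⊢
  rwa [mul_assoc] at hy

/-- It is enough to check generators. -/
theorem AI.of_gen {S : Set G} (hS : Subgroup.closure S = ⊤) {W : Set G}
    (h : ∀ t ∈ S, {y | ¬ (y ∈ W ↔ t * y ∈ W)}.Finite) : AI W := by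
  intro t
  have ht : t ∈ Subgroup.closure S := by rw [hS]; trivial
  induction ht using Subgroup.closure_induction with
  | mem t ht => exact h t ht
  | one => simp
  | mul a b _ _ ha hb =>
    have h1 := ha.preimage (f := fun y => b * y) (mul_right_injective b).injOn
    refine (hb.union h1).subset ?_
    intro y hy
    simp only [Set.mem_ofPred_eq, Set.mem_preimage, Set.mem_union] at hy ⊢
    rw [mul_assoc] at hy
    tauto
  | inv a _ ha =>
    have h1 := ha.preimage (f := fun y => a⁻¹ * y) (mul_right_injective a⁻¹).injOn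
    refine h1.subset ?_
    intro y hy
    simp only [Set.mem_ofPred_eq, Set.mem_preimage] at hy ⊢
    rw [mul_inv_cancel_left]
    tauto

/-- A nonempty almost invariant set mapped into itself by right multiplication by `c`. -/
structure Good (A : Set G) (c : G) : Prop where
  ai : AI A
  sub : ∀ y ∈ A, y * c ∈ A
  ne : A.Nonempty

theorem Good.sub_pow {A : Set G} {c : G} (h : Good A c) {y : G} (hy : y ∈ A) (n : ℕ) :
    y * c ^ n ∈ A := by
  induction n with
  | zero => simpa using hy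
  | succ n ih =>
    rw [pow_succ, ← mul_assoc]
    exact h.sub _ ih

theorem pow_inj {c : G} (hc : ∀ n : ℕ, 0 < n → c ^ n ≠ 1) {m n : ℕ} (h : c ^ m = c ^ n) :
    m = n := by
  rcases lt_trichotomy m n with hlt | rfl | hlt
  · exfalso
    apply hc (n - m) (by omega)
    rw [pow_sub c hlt.le, ← h, mul_inv_cancel]
  · rfl
  · exfalso
    apply hc (m - n) (by omega)
    rw [pow_sub c hlt.le, h, mul_inv_cancel]

theorem inv_pow_ne {c : G} (hc : ∀ n : ℕ, 0 < n → c ^ n ≠ 1) :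
    ∀ n : ℕ, 0 < n → c⁻¹ ^ n ≠ 1 := by
  intro n hn h
  apply hc n hn
  rw [inv_pow, inv_eq_one] at h
  exact h

/-- The positive translates exhaust the group. -/
theorem Good.exhaust {A : Set G} {c : G} (h : Good A c) (hc : ∀ n : ℕ, 0 < n → c ^ n ≠ 1)
    (y : G) : ∃ n0 : ℕ, ∀ n, n0 ≤ n → y * c ^ n ∈ A := by
  obtain ⟨a0, ha0⟩ := h.ne
  obtain ⟨t, rfl⟩ : ∃ t, y = t * a0 := ⟨y * a0⁻¹, by group⟩
  have h1 : ∃ n, t * a0 * c ^ n ∈ A := by
    by_contra hcon
    push Not at hcon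
    have h2 : Set.Infinite {y | ¬ (y ∈ A ↔ t * y ∈ A)} := by
      refine Set.infinite_of_injective_forall_mem (f := fun n : ℕ => a0 * c ^ n) ?_ ?_
      · intro m n hmn
        exact pow_inj hc (mul_left_cancel hmn)
      · intro n
        have h3 := h.sub_pow ha0 n
        have h4 := hcon n
        rw [mul_assoc] at h4
        simp only [Set.mem_ofPred_eq]
        tauto
    exact h2 (h.ai t)
  obtain ⟨n0, hn0⟩ := h1
  refine ⟨n0, fun n hn => ?_⟩
  have h5 := h.sub_pow hn0 (n - n0)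
  rwa [mul_assoc, ← pow_add, Nat.add_sub_cancel' hn] at h5

/-- Steps inside a set. -/
def Step (S : Set G) (Y : Set G) (y z : G) : Prop :=
  y ∈ Y ∧ z ∈ Y ∧ ∃ t, (t ∈ S ∨ t⁻¹ ∈ S) ∧ z = t * y

/-- Connectivity inside a set. -/
abbrev Conn (S : Set G) (Y : Set G) : G → G → Prop := Relation.ReflTransGen (Step S Y)

theorem Step.symm {S Y : Set G} {y z : G} (h : Step S Y y z) : Step S Y z y := by
  obtain ⟨h1, h2, t, ht, rfl⟩ := h
  refine ⟨h2, h1, t⁻¹, ?_, by group⟩
  rw [inv_inv]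
  tauto

theorem Conn.symm {S Y : Set G} {y z : G} (h : Conn S Y y z) : Conn S Y z y := by
  induction h with
  | refl => exact Relation.ReflTransGen.refl
  | tail _ h2 ih => exact Relation.ReflTransGen.head h2.symm ih

theorem Conn.mono {S Y Z : Set G} (hYZ : Y ⊆ Z) {y z : G} (h : Conn S Y y z) : Conn S Z y z :=
  Relation.ReflTransGen.mono (fun _ _ ⟨h1, h2, h3⟩ => ⟨hYZ h1, hYZ h2, h3⟩) _ _ h

theorem conn_of_list {S Y : Set G} {y : G} (l : List G) (hl : ∀ t ∈ l, t ∈ S ∨ t⁻¹ ∈ S)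
    (h : ∀ l' ∈ l.tails, l'.prod * y ∈ Y) : Conn S Y y (l.prod * y) := by
  induction l with
  | nil =>
    rw [List.prod_nil, one_mul]
  | cons t l ih =>
    have h1 : ∀ l' ∈ l.tails, l'.prod * y ∈ Y := by
      intro l' hl'
      apply h
      rw [List.mem_tails] at hl' ⊢
      exact hl'.trans (List.suffix_cons t l)
    refine (ih (fun t ht => hl t (List.mem_cons_of_mem _ ht)) h1).tail ?_
    refine ⟨h1 l (by rw [List.mem_tails]), h (t :: l) (by rw [List.mem_tails]), t,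
      hl t (List.mem_cons_self ..), ?_⟩
    rw [List.prod_cons, mul_assoc]

theorem list_of_closure {S : Set G} (hS : Subgroup.closure S = ⊤) (g : G) :
    ∃ l : List G, (∀ x ∈ l, x ∈ S ∨ x⁻¹ ∈ S) ∧ l.prod = g := by
  have h1 : g ∈ (Subgroup.closure S).toSubmonoid := by
    rw [hS]
    trivial
  rw [Subgroup.closure_toSubmonoid] at h1
  obtain ⟨l, h2, h3⟩ := Submonoid.exists_list_of_mem_closure h1
  refine ⟨l, fun x hx => ?_, h3⟩
  rcases h2 x hx with h | h
  · exact Or.inl h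
  · exact Or.inr (Set.mem_inv.1 h)

/-- A component of a good set is good and connected. -/
theorem Good.component {S : Set G} (hS : Subgroup.closure S = ⊤) {A : Set G} {c : G}
    (h : Good A c) (hc : ∀ n : ℕ, 0 < n → c ^ n ≠ 1) :
    ∃ A1 : Set G, A1 ⊆ A ∧ Good A1 c ∧ (∀ y ∈ A1, ∀ z ∈ A1, Conn S A1 y z) ∧
      ∀ y ∈ A1, ∀ t, (t ∈ S ∨ t⁻¹ ∈ S) → t * y ∈ A → t * y ∈ A1 := by
  obtain ⟨l, hl1, hl2⟩ := list_of_closure hS c
  -- a level after which the axis is in `A`
  have h1 : ∃ n1 : ℕ, ∀ n, n1 ≤ n → ∀ l' ∈ l.tails, l'.prod * c ^ n ∈ A := by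
    have h2 : ∀ l' ∈ l.tails, ∃ n0 : ℕ, ∀ n, n0 ≤ n → l'.prod * c ^ n ∈ A :=
      fun l' _ => h.exhaust hc _
    generalize l.tails = L at h2
    induction L with
    | nil => exact ⟨0, fun n _ l' hl' => absurd hl' (by simp)⟩
    | cons a L ih =>
      obtain ⟨n1, hn1⟩ := ih (fun l' hl' => h2 l' (List.mem_cons_of_mem _ hl'))
      obtain ⟨n2, hn2⟩ := h2 a (List.mem_cons_self ..)
      refine ⟨max n1 n2, fun n hn l' hl' => ?_⟩
      rcases List.mem_cons.1 hl' with rfl | hl'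
      · exact hn2 n ((le_max_right _ _).trans hn)
      · exact hn1 n ((le_max_left _ _).trans hn) l' hl'
  obtain ⟨n1, hn1⟩ := h1
  have hbase : c ^ n1 ∈ A := by
    have := hn1 n1 le_rfl [] (by rw [List.mem_tails]; exact List.nil_suffix)
    simpa using this
  let A1 : Set G := {y | Conn S A (c ^ n1) y}
  have hsub : A1 ⊆ A := by
    intro y hy
    have hy' : Conn S A (c ^ n1) y := hy
    induction hy' with
    | refl => exact hbase
    | tail _ h2 _ => exact h2.2.1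
  have hclosed : ∀ y ∈ A1, ∀ t, (t ∈ S ∨ t⁻¹ ∈ S) → t * y ∈ A → t * y ∈ A1 := by
    intro y hy t ht hty
    exact Relation.ReflTransGen.tail hy ⟨hsub hy, hty, t, ht, rfl⟩
  have hstep : Conn S A (c ^ n1) (c ^ (n1 + 1)) := by
    have h3 := conn_of_list (S := S) (Y := A) (y := c ^ n1) l hl1 (hn1 n1 le_rfl)
    rwa [hl2, ← pow_succ'] at h3
  have hgood : Good A1 c := by
    refine ⟨?_, ?_, ⟨c ^ n1, Relation.ReflTransGen.refl⟩⟩
    · apply AI.of_gen hS
      intro t ht
      refine (h.ai t).subset ?_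
      intro y hy
      simp only [Set.mem_ofPred_eq] at hy ⊢
      by_cases h4 : y ∈ A1
      · have h5 : t * y ∉ A1 := fun h5 => hy ⟨fun _ => h5, fun _ => h4⟩
        have h6 : t * y ∉ A := fun h6 => h5 (hclosed y h4 t (Or.inl ht) h6)
        have h7 := hsub h4
        tauto
      · have h5 : t * y ∈ A1 := by
          by_contra h5
          exact hy ⟨fun h => absurd h h4, fun h => absurd h h5⟩
        have h6 : y ∉ A := by
          intro h6
          apply h4
          have h7 := hclosed (t * y) h5 t⁻¹ (Or.inr (by rwa [inv_inv])) (by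
            rwa [inv_mul_cancel_left])
          rwa [inv_mul_cancel_left] at h7
        have h7 := hsub h5
        tauto
    · intro y hy
      have hy' : Conn S A (c ^ n1) y := hy
      have h4 : Conn S A (c ^ n1 * c) (y * c) := by
        refine Relation.ReflTransGen.lift (r := Step S A) (p := Step S A) (fun z => z * c) ?_ _ _ hy'
        rintro a b ⟨h5, h6, t, ht, rfl⟩
        exact ⟨h.sub _ h5, h.sub _ h6, t, ht, mul_assoc t a c⟩
      rw [← pow_succ] at h4
      exact Relation.ReflTransGen.trans hstep h4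
  have hconn : ∀ y ∈ A1, Conn S A1 (c ^ n1) y := by
    intro y hy
    have hy' : Conn S A (c ^ n1) y := hy
    induction hy' with
    | refl => exact Relation.ReflTransGen.refl
    | tail h2 h3 ih =>
      refine Relation.ReflTransGen.tail (ih h2) ⟨h2, ?_, h3.2.2⟩
      exact Relation.ReflTransGen.tail h2 h3
  exact ⟨A1, hsub, hgood, fun y hy z hz => (hconn y hy).symm.trans (hconn z hz), hclosed⟩

/-- The complement of a good set. -/
theorem Good.compl {A : Set G} {c : G} (h : Good A c) (hne : A ≠ Set.univ) : Good Aᶜ c⁻¹ := by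
  refine ⟨h.ai.compl, fun y hy hy' => ?_, ?_⟩
  · have := h.sub _ hy'
    rw [inv_mul_cancel_right] at this
    exact hy this
  · rw [Set.nonempty_compl]
    exact hne

/-- A cut with two connected sides moved by `c`. -/
structure Cut2 (S : Set G) (A : Set G) (c : G) : Prop where
  good : Good A c
  good' : Good Aᶜ c⁻¹
  conn : ∀ y ∈ A, ∀ z ∈ A, Conn S A y z
  conn' : ∀ y ∈ Aᶜ, ∀ z ∈ Aᶜ, Conn S Aᶜ y z

theorem Cut2.symm {S A : Set G} {c : G} (h : Cut2 S A c) : Cut2 S Aᶜ c⁻¹ := by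
  refine ⟨h.good', ?_, h.conn', ?_⟩
  · rw [compl_compl, inv_inv]
    exact h.good
  · rw [compl_compl]
    exact h.conn

theorem exists_cut2 {S : Set G} (hS : Subgroup.closure S = ⊤) {A : Set G} {c : G}
    (h : Good A c) (hne : A ≠ Set.univ) (hc : ∀ n : ℕ, 0 < n → c ^ n ≠ 1) :
    ∃ A2 : Set G, Cut2 S A2 c := by
  obtain ⟨A1, hA1, hg1, hc1, hcl1⟩ := h.component hS hc
  have hne1 : A1 ≠ Set.univ := by
    rintro rfl
    exact hne (Set.eq_univ_of_univ_subset hA1)
  obtain ⟨B, hB, hgB, hcB, hclB⟩ := (hg1.compl hne1).component hS (inv_pow_ne hc)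
  have hBne : B ≠ Set.univ := by
    rintro rfl
    obtain ⟨a, ha⟩ := hg1.ne
    exact hB (Set.mem_univ a) ha
  have hgA := hgB.compl hBne
  rw [inv_inv] at hgA
  have hsub : A1 ⊆ Bᶜ := fun y hy hy' => hB hy' hy
  refine ⟨Bᶜ, hgA, by rwa [compl_compl], ?_, by rwa [compl_compl]⟩
  obtain ⟨a1, ha1⟩ := hg1.ne
  -- each point of `Bᶜ` is connected to `A1`
  have key : ∀ l : List G, (∀ t ∈ l, t ∈ S ∨ t⁻¹ ∈ S) → ∀ y, y ∉ A1 → y ∉ B → l.prod * y ∈ A1 →
      ∃ z ∈ A1, Conn S Bᶜ y z := by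
    intro l
    induction l using List.reverseRecOn with
    | nil =>
      intro _ y hy _ h2
      rw [List.prod_nil, one_mul] at h2
      exact absurd h2 hy
    | append_singleton l t ih =>
      intro hl y hy hyB h2
      have ht := hl t (by simp)
      rw [List.prod_append, List.prod_singleton, mul_assoc] at h2
      by_cases h3 : t * y ∈ A1
      · exact ⟨t * y, h3, Relation.ReflTransGen.single ⟨hyB, hsub h3, t, ht, rfl⟩⟩
      · have h4 : t * y ∉ B := by
          intro h4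
          have h5 := hclB (t * y) h4 t⁻¹ (by rw [inv_inv]; tauto) (by
            rw [inv_mul_cancel_left]
            exact hy)
          rw [inv_mul_cancel_left] at h5
          exact hyB h5
        obtain ⟨z, hz, h5⟩ := ih (fun s hs => hl s (by simp [hs])) (t * y) h3 h4 h2
        exact ⟨z, hz, Relation.ReflTransGen.head ⟨hyB, h4, t, ht, rfl⟩ h5⟩
  have hconn : ∀ y ∈ Bᶜ, Conn S Bᶜ a1 y := by
    intro y hy
    by_cases h2 : y ∈ A1
    · exact (hc1 a1 ha1 y h2).mono hsub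
    · obtain ⟨l, hl1, hl2⟩ := list_of_closure hS (a1 * y⁻¹)
      obtain ⟨z, hz, h3⟩ := key l hl1 y h2 hy (by rw [hl2]; simpa using ha1)
      exact ((hc1 a1 ha1 z hz).mono hsub).trans h3.symm
  exact fun y hy z hz => (hconn y hy).symm.trans (hconn z hz)

/-- Eventually all `c ^ n * g` are in `W`. -/
def EvIn (c g : G) (W : Set G) : Prop := ∃ n0 : ℕ, ∀ n, n0 ≤ n → c ^ n * g ∈ W

theorem EvIn.not_compl {c g : G} {W : Set G} (h : EvIn c g W) : ¬ EvIn c g Wᶜ := by
  rintro ⟨n1, h1⟩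
  obtain ⟨n0, h0⟩ := h
  exact h1 (max n0 n1) (le_max_right _ _) (h0 _ (le_max_left _ _))

theorem EvIn.mono {c g : G} {W W' : Set G} (h : EvIn c g W) (hW : W ⊆ W') : EvIn c g W' := by
  obtain ⟨n0, h0⟩ := h
  exact ⟨n0, fun n hn => hW (h0 n hn)⟩

theorem evIn_dich {W : Set G} (hW : AI W) {c : G} (hc : ∀ n : ℕ, 0 < n → c ^ n ≠ 1) (g : G) :
    EvIn c g W ∨ EvIn c g Wᶜ := by
  have h1 := hW c
  have h2 : ({n : ℕ | c ^ n * g ∈ {y | ¬ (y ∈ W ↔ c * y ∈ W)}} : Set ℕ).Finite := by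
    refine h1.preimage (f := fun n : ℕ => c ^ n * g) ?_
    intro m _ n _ hmn
    exact pow_inj hc (mul_right_cancel hmn)
  obtain ⟨N, hN⟩ := h2.bddAbove
  have h3 : ∀ n, N < n → (c ^ n * g ∈ W ↔ c ^ (n + 1) * g ∈ W) := by
    intro n hn
    by_contra h4
    have h5 : n ∈ ({n : ℕ | c ^ n * g ∈ {y | ¬ (y ∈ W ↔ c * y ∈ W)}} : Set ℕ) := by
      simp only [Set.mem_ofPred_eq]
      rw [← mul_assoc, ← pow_succ']
      exact h4
    exact absurd (hN h5) (not_le.2 hn)
  have h4 : ∀ k, (c ^ (N + 1) * g ∈ W ↔ c ^ (N + 1 + k) * g ∈ W) := by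
    intro k
    induction k with
    | zero => rfl
    | succ k ih => exact ih.trans (h3 _ (by omega))
  by_cases h5 : c ^ (N + 1) * g ∈ W
  · left
    refine ⟨N + 1, fun n hn => ?_⟩
    have := (h4 (n - (N + 1))).1 h5
    rwa [Nat.add_sub_cancel' hn] at this
  · right
    refine ⟨N + 1, fun n hn => ?_⟩
    have := fun h => h5 ((h4 (n - (N + 1))).2 h)
    rwa [Nat.add_sub_cancel' hn] at this

/-- A neighbourhood of the end of `c` contains a translate of the cut. -/
theorem Cut2.absorb {S : Set G} (hSf : S.Finite) {A : Set G} {c : G} (h : Cut2 S A c)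
    (hc : ∀ n : ℕ, 0 < n → c ^ n ≠ 1) {W : Set G} (hW : AI W) (hE : EvIn c 1 W) :
    ∃ m0 : ℕ, ∀ m, m0 ≤ m → ∀ y ∈ A, y * c ^ m ∈ W := by
  -- the boundary of `W`
  have hS' : ({t | t ∈ S ∨ t⁻¹ ∈ S} : Set G).Finite := by
    have : ({t | t ∈ S ∨ t⁻¹ ∈ S} : Set G) = S ∪ S⁻¹ := by
      ext g
      simp
    rw [this]
    exact hSf.union hSf.inv
  have hD : ({y | ∃ t, (t ∈ S ∨ t⁻¹ ∈ S) ∧ ¬ (y ∈ W ↔ t * y ∈ W)} : Set G).Finite := by
    have : ({y | ∃ t, (t ∈ S ∨ t⁻¹ ∈ S) ∧ ¬ (y ∈ W ↔ t * y ∈ W)} : Set G) ⊆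
        ⋃ t ∈ ({t | t ∈ S ∨ t⁻¹ ∈ S} : Set G), {y | ¬ (y ∈ W ↔ t * y ∈ W)} := by
      rintro y ⟨t, ht, hy⟩
      exact Set.mem_biUnion (show t ∈ ({t | t ∈ S ∨ t⁻¹ ∈ S} : Set G) from ht) hy
    exact (hS'.biUnion (fun t _ => hW t)).subset this
  have h1 : ∃ m1 : ℕ, ∀ m, m1 ≤ m → ∀ y ∈ ({y | ∃ t, (t ∈ S ∨ t⁻¹ ∈ S) ∧
      ¬ (y ∈ W ↔ t * y ∈ W)} : Set G), y * c⁻¹ ^ m ∈ Aᶜ := by
    generalize ({y | ∃ t, (t ∈ S ∨ t⁻¹ ∈ S) ∧ ¬ (y ∈ W ↔ t * y ∈ W)} : Set G) = D at hD
    induction D, hD using Set.Finite.induction_on with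
    | empty => exact ⟨0, fun m _ y hy => absurd hy (Set.notMem_empty y)⟩
    | @insert a D _ _ ih =>
      obtain ⟨m1, hm1⟩ := ih
      obtain ⟨m2, hm2⟩ := h.good'.exhaust (inv_pow_ne hc) a
      refine ⟨max m1 m2, fun m hm y hy => ?_⟩
      rcases Set.mem_insert_iff.1 hy with rfl | hy
      · exact hm2 m ((le_max_right _ _).trans hm)
      · exact hm1 m ((le_max_left _ _).trans hm) y hy
  obtain ⟨m1, hm1⟩ := h1
  obtain ⟨n1, hn1⟩ := h.good.exhaust hc 1
  obtain ⟨n2, hn2⟩ := hE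
  refine ⟨max m1 n2, fun m hm y hy => ?_⟩
  have h2 : c ^ n1 ∈ A := by simpa using hn1 n1 le_rfl
  have h3 : c ^ n1 * c ^ m ∈ W := by
    rw [← pow_add]
    simpa using hn2 (n1 + m) (by
      have := (le_max_right m1 n2).trans hm
      omega)
  have h4 := h.conn _ h2 y hy
  induction h4 with
  | refl => exact h3
  | @tail a b _ hab ih =>
    obtain ⟨ha, hb, t, ht, rfl⟩ := hab
    have h5 := ih ha
    by_contra h6
    have h7 : a * c ^ m ∈ ({y | ∃ t, (t ∈ S ∨ t⁻¹ ∈ S) ∧ ¬ (y ∈ W ↔ t * y ∈ W)} : Set G) := by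
      refine ⟨t, ht, ?_⟩
      rw [← mul_assoc]
      tauto
    have h8 := hm1 m ((le_max_left _ _).trans hm) _ h7
    rw [inv_pow, mul_inv_cancel_right] at h8
    exact h8 ha

end Pool.Agent.Lib.H31.Ends
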