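import Pool.Agent.Lib.H31.Ends.T3

/-!
# Groups all of whose proper subgroups are cyclic: conclusion
-/

namespace Pool.Agent.Lib.H31.Ends

universe u

variable {G : Type u} [Group G]

/-- Right multiplication by the inverse as an action. -/
structure RAct (G : Type*) where
  /-- The underlying element. -/
  val : G

instance : MulAction G (RAct G) where
  smul t y := ⟨y.val * t⁻¹⟩
  one_smul y := by
    show (⟨y.val * (1 : G)⁻¹⟩ : RAct G) = y
    rw [inv_one, mul_one]
  mul_smul s t y := by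
    show (⟨y.val * (s * t)⁻¹⟩ : RAct G) = ⟨y.val * t⁻¹ * s⁻¹⟩
    rw [mul_inv_rev, mul_assoc]

theorem zpow_inj {u : G} (hu : ∀ n : ℕ, 0 < n → u ^ n ≠ 1) {i j : ℤ} (h : u ^ i = u ^ j) :
    i = j := by
  by_contra hne
  have h1 : u ^ (i - j) = 1 := by rw [zpow_sub, h, mul_inv_cancel]
  have h2 : u ^ (i - j).natAbs = 1 := by
    rcases Int.natAbs_eq (i - j) with h3 | h3
    · rw [h3, zpow_natCast] at h1
      exact h1
    · rw [h3, zpow_neg, inv_eq_one, zpow_natCast] at h1
      exact h1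
  exact hu _ (Int.natAbs_pos.2 (sub_ne_zero.2 hne)) h2

/-- A noncyclic group all of whose proper subgroups are cyclic is not infinite dihedral. -/
theorem T3.not_dihedral (h : T3 G) {u a : G} (hu : ∀ n : ℕ, 0 < n → u ^ n ≠ 1)
    (ha : a * u * a⁻¹ = u⁻¹) : False := by
  have hu2 : u⁻¹ ≠ u := by
    intro h1
    apply hu 2 (by norm_num)
    rw [pow_two]
    nth_rewrite 1 [← h1]
    rw [inv_mul_cancel]
  let C : Subgroup G := Subgroup.centralizer {u}
  have hC : ∀ g, g ∈ C ↔ g * u * g⁻¹ = u := by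
    intro g
    rw [Subgroup.mem_centralizer_singleton_iff, mul_inv_eq_iff_eq_mul]
  have haC : a ∉ C := by
    rw [hC, ha]
    exact hu2
  have hCtop : C ≠ ⊤ := fun h1 => haC (by rw [h1]; trivial)
  obtain ⟨⟨v, hvC⟩, hv⟩ := (h.cyc C hCtop).exists_generator
  have hv' : ∀ g ∈ C, ∃ k : ℤ, v ^ k = g := by
    intro g hg
    obtain ⟨k, hk⟩ := hv ⟨g, hg⟩
    exact ⟨k, congrArg Subtype.val hk⟩
  obtain ⟨t, ht⟩ := hv' u (by rw [hC]; group)
  have hvinf : ∀ n : ℕ, 0 < n → v ^ n ≠ 1 := by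
    intro n hn h1
    apply hu n hn
    rw [← ht, ← zpow_natCast, ← zpow_mul, mul_comm, zpow_mul, zpow_natCast, h1, one_zpow]
  have ht0 : t ≠ 0 := by
    rintro rfl
    rw [zpow_zero] at ht
    exact hu 1 one_pos (by rw [← ht, one_pow])
  have ha' : a⁻¹ * u * a = u⁻¹ := by
    have h1 : u = a⁻¹ * u⁻¹ * a := by rw [← ha]; group
    have h2 : u⁻¹ = (a⁻¹ * u⁻¹ * a)⁻¹ := by rw [← h1]
    rw [h2]
    group
  have hav : a * v * a⁻¹ ∈ C := by
    rw [hC]
    have h1 : v * u⁻¹ * v⁻¹ = u⁻¹ := by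
      have h2 : v * u⁻¹ * v⁻¹ = (v * u * v⁻¹)⁻¹ := by group
      rw [h2, (hC v).1 hvC]
    calc a * v * a⁻¹ * u * (a * v * a⁻¹)⁻¹ = a * (v * (a⁻¹ * u * a) * v⁻¹) * a⁻¹ := by group
      _ = a * u⁻¹ * a⁻¹ := by rw [ha', h1]
      _ = (a * u * a⁻¹)⁻¹ := by group
      _ = u := by rw [ha, inv_inv]
  obtain ⟨j, hj⟩ := hv' _ hav
  have hconj : ∀ k : ℤ, a * v ^ k * a⁻¹ = v ^ (j * k) := by
    intro k
    rw [← conj_zpow, ← hj, zpow_mul]
  have hj1 : j = -1 := by
    have h1 := hconj t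
    rw [ht, ha, ← ht, ← zpow_neg] at h1
    have h2 := zpow_inj hvinf h1
    have h3 : t * (j + 1) = 0 := by linarith
    rcases mul_eq_zero.1 h3 with h4 | h4
    · exact absurd h4 ht0
    · omega
  rw [hj1] at hconj
  have ha2C : a * a ∈ C := by
    rw [hC]
    have : a * a * u * (a * a)⁻¹ = a * (a * u * a⁻¹) * a⁻¹ := by group
    rw [this, ha]
    have : a * u⁻¹ * a⁻¹ = (a * u * a⁻¹)⁻¹ := by group
    rw [this, ha, inv_inv]
  obtain ⟨i, hi⟩ := hv' _ ha2C
  have ha2 : a * a = 1 := by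
    have h1 := hconj i
    rw [hi] at h1
    have h2 : a * (a * a) * a⁻¹ = a * a := by group
    rw [h2, ← hi] at h1
    have h3 := zpow_inj hvinf h1
    have h4 : i = 0 := by linarith
    rw [← hi, h4, zpow_zero]
  have hainv : a⁻¹ = a := by rw [inv_eq_iff_mul_eq_one, ha2]
  have hcomm : ∀ k : ℤ, v ^ k * a = a * v ^ (-k) := by
    intro k
    have h1 := hconj (-k)
    rw [hainv] at h1
    have h2 : v ^ k = a * v ^ (-k) * a := by
      rw [h1]
      congr 1
      ring
    rw [h2, mul_assoc (a * v ^ (-k)), ha2, mul_one]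
  let L : Subgroup G :=
    { carrier := {g | ∃ k : ℤ, g = v ^ (2 * k) ∨ g = a * v ^ (2 * k)}
      mul_mem' := by
        rintro x y ⟨k, hx⟩ ⟨l, hy⟩
        rcases hx with rfl | rfl <;> rcases hy with rfl | rfl
        · exact ⟨k + l, Or.inl (by rw [← zpow_add]; congr 1; ring)⟩
        · refine ⟨-k + l, Or.inr ?_⟩
          rw [← mul_assoc, hcomm, mul_assoc, ← zpow_add]
          congr 2
          ring
        · refine ⟨k + l, Or.inr ?_⟩
          rw [mul_assoc, ← zpow_add]
          congr 2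
          ring
        · refine ⟨-k + l, Or.inl ?_⟩
          rw [mul_assoc, ← mul_assoc (v ^ (2 * k)), hcomm, mul_assoc a, ← zpow_add, ← mul_assoc,
            ha2, one_mul]
          congr 1
          ring
      one_mem' := ⟨0, Or.inl (by simp)⟩
      inv_mem' := by
        rintro x ⟨k, hx⟩
        rcases hx with rfl | rfl
        · refine ⟨-k, Or.inl ?_⟩
          rw [← zpow_neg]
          congr 1
          ring
        · refine ⟨k, Or.inr ?_⟩
          rw [mul_inv_rev, hainv, ← zpow_neg, hcomm, neg_neg] }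
  have hvL : v ∉ L := by
    rintro ⟨k, hk | hk⟩
    · have h1 : v ^ (1 : ℤ) = v ^ (2 * k) := by rw [zpow_one]; exact hk
      have h2 := zpow_inj hvinf h1
      omega
    · apply haC
      have h1 : a = v * (v ^ (2 * k))⁻¹ := by
        rw [eq_mul_inv_iff_mul_eq]
        exact hk.symm
      rw [h1]
      exact C.mul_mem hvC (C.inv_mem (C.zpow_mem hvC _))
  have hLtop : L ≠ ⊤ := fun h1 => hvL (by rw [h1]; trivial)
  obtain ⟨w, hw⟩ := (h.cyc L hLtop).exists_generator
  obtain ⟨e1, he1⟩ := hw ⟨a, ⟨0, Or.inr (by simp)⟩⟩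
  obtain ⟨e2, he2⟩ := hw ⟨v ^ (2 : ℤ), ⟨1, Or.inl (by norm_num)⟩⟩
  have he1' : (w : G) ^ e1 = a := congrArg Subtype.val he1
  have he2' : (w : G) ^ e2 = v ^ (2 : ℤ) := congrArg Subtype.val he2
  have h5 : a * v ^ (2 : ℤ) = v ^ (2 : ℤ) * a := by
    rw [← he1', ← he2', ← zpow_add, ← zpow_add, add_comm]
  rw [hcomm] at h5
  have h6 := zpow_inj hvinf (mul_left_cancel h5)
  omega

/-- Case of a cyclic subgroup of finite index. -/
theorem T3.not_virt {S : Set G} {A : Set G} {c : G} (h : T3 G) (hcut : Cut2 S A c)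
    (hc : ∀ n : ℕ, 0 < n → c ^ n ≠ 1) (H : Subgroup G) (hH : H ≠ ⊤) (hfi : H.FiniteIndex) :
    False := by
  have hNfi : H.normalCore.FiniteIndex := inferInstance
  have hNle : H.normalCore ≤ H := H.normalCore_le
  set N := H.normalCore with hN
  have hNtop : N ≠ ⊤ := fun h1 => hH (top_le_iff.1 (h1 ▸ hNle))
  obtain ⟨⟨u, huN⟩, hu⟩ := (h.cyc N hNtop).exists_generator
  have hu' : ∀ g ∈ N, ∃ k : ℤ, u ^ k = g := by
    intro g hg
    obtain ⟨k, hk⟩ := hu ⟨g, hg⟩
    exact ⟨k, congrArg Subtype.val hk⟩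
  have hp : 0 < N.index := Nat.pos_of_ne_zero hNfi.index_ne_zero
  have hcp : c ^ N.index ∈ N := Subgroup.pow_index_mem N c
  obtain ⟨t, ht⟩ := hu' _ hcp
  have hcp0 : ∀ n : ℕ, 0 < n → (c ^ N.index) ^ n ≠ 1 := by
    intro n hn
    rw [← pow_mul]
    exact hc _ (Nat.mul_pos hp hn)
  have huinf : ∀ n : ℕ, 0 < n → u ^ n ≠ 1 := by
    intro n hn h1
    apply hcp0 n hn
    rw [← ht, ← zpow_natCast, ← zpow_mul, mul_comm, zpow_mul, zpow_natCast, h1, one_zpow]
  have hconj : ∀ g : G, g * u * g⁻¹ = u ∨ g * u * g⁻¹ = u⁻¹ := by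
    intro g
    obtain ⟨j, hj⟩ := hu' _ ((inferInstance : N.Normal).conj_mem u huN g)
    obtain ⟨j', hj'⟩ := hu' _ ((inferInstance : N.Normal).conj_mem u huN g⁻¹)
    have h1 : u ^ (1 : ℤ) = u ^ (j * j') := by
      have h2 : u = g * (g⁻¹ * u * g⁻¹⁻¹) * g⁻¹ := by group
      rw [← hj', ← conj_zpow, ← hj, ← zpow_mul] at h2
      rw [zpow_one]
      exact h2
    have h3 := zpow_inj huinf h1
    rcases Int.eq_one_or_neg_one_of_mul_eq_one h3.symm with h4 | h4
    · left
      rw [← hj, h4, zpow_one]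
    · right
      rw [← hj, h4, zpow_neg_one]
  by_cases hall : ∀ g : G, g * u * g⁻¹ = u
  · have hcen : ∀ g, g * c ^ N.index = c ^ N.index * g := by
      intro g
      rw [← ht]
      have h1 : g * u ^ t * g⁻¹ = u ^ t := by rw [← conj_zpow, hall g]
      rwa [mul_inv_eq_iff_eq_mul] at h1
    obtain ⟨f, hf⟩ := hom_of_central hcut hc hp hcen
    exact hf (h.no_hom f _)
  · push Not at hall
    obtain ⟨a, ha⟩ := hall
    exact h.not_dihedral huinf ((hconj a).resolve_left ha)

/-- The ping-pong case. -/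
theorem T3.not_free (h : T3 G) (a : Bool → G) (ha : Function.Injective (FreeGroup.lift a)) :
    False := by
  by_cases htop : (FreeGroup.lift a).range = ⊤
  · have hsurj : Function.Surjective (FreeGroup.lift a) := MonoidHom.range_eq_top.1 htop
    let e : FreeGroup Bool ≃* G := MulEquiv.ofBijective (FreeGroup.lift a) ⟨ha, hsurj⟩
    let f : G →* Multiplicative ℤ :=
      (FreeGroup.lift (fun _ : Bool => Multiplicative.ofAdd (1 : ℤ))).comp e.symm.toMonoidHom
    have h1 := h.no_hom f (e (FreeGroup.of true))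
    have h2 : f (e (FreeGroup.of true)) = Multiplicative.ofAdd (1 : ℤ) := by
      show FreeGroup.lift (fun _ : Bool => Multiplicative.ofAdd (1 : ℤ))
        (e.symm (e (FreeGroup.of true))) = _
      rw [e.symm_apply_apply, FreeGroup.lift_apply_of]
    rw [h2] at h1
    have h3 := congrArg Multiplicative.toAdd h1
    simp at h3
  · obtain ⟨w, hw⟩ := (h.cyc _ htop).exists_generator
    have key : ∀ b, ∃ k : ℤ, (w : G) ^ k = a b := by
      intro b
      obtain ⟨k, hk⟩ := hw ⟨a b, FreeGroup.of b, FreeGroup.lift_apply_of⟩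
      exact ⟨k, congrArg Subtype.val hk⟩
    obtain ⟨k1, hk1⟩ := key true
    obtain ⟨k2, hk2⟩ := key false
    have h1 : a true * a false = a false * a true := by
      rw [← hk1, ← hk2, ← zpow_add, ← zpow_add, add_comm]
    have h2 : FreeGroup.of true * FreeGroup.of false =
        (FreeGroup.of false * FreeGroup.of true : FreeGroup Bool) := by
      apply ha
      rw [map_mul, map_mul, FreeGroup.lift_apply_of, FreeGroup.lift_apply_of, h1]
    have h3 := congrArg FreeGroup.toWord h2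
    revert h3
    decide

theorem T3.not_free' {G : Type u} [Group G] (h : T3 G) (a : ULift.{u} Bool → G)
    (ha : Function.Injective (FreeGroup.lift a)) : False := by
  apply h.not_free (fun b => a (ULift.up b))
  have h1 : FreeGroup.lift (fun b => a (ULift.up b)) =
      (FreeGroup.lift a).comp (FreeGroup.map ULift.up) := by
    ext b
    simp
  rw [h1, MonoidHom.coe_comp]
  exact ha.comp (FreeGroup.map_injective ULift.up_injective)

open scoped Pointwise in
theorem exists_coset {c c' : G} (hc : ∀ n : ℕ, 0 < n → c ^ n ≠ 1)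
    (hc' : ∀ n : ℕ, 0 < n → c' ^ n ≠ 1) :
    ∃ g3 : G, ∀ x, FixTo c x⁻¹ c' → x ∈ g3 • (FixSub c hc : Set G) := by
  by_cases h : ∃ g0, FixTo c g0 c'
  · obtain ⟨g0, hg0⟩ := h
    refine ⟨g0⁻¹, fun x hx => ?_⟩
    rw [mem_leftCoset_iff, inv_inv]
    have h1 : x⁻¹ * g0⁻¹ ∈ FixSub c hc := fixTo_coset hc' hx hg0
    have h2 := (FixSub c hc).inv_mem h1
    rw [mul_inv_rev, inv_inv, inv_inv] at h2
    exact h2
  · exact ⟨1, fun x hx => absurd ⟨_, hx⟩ h⟩

open scoped Pointwise in
/-- No group of type `T3` has a translated cut. -/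
theorem T3.no_cut {S : Set G} (hSf : S.Finite) {A : Set G} {c : G} (h : T3 G)
    (hcut : Cut2 S A c) (hc : ∀ n : ℕ, 0 < n → c ^ n ≠ 1) : False := by
  have hc' := inv_pow_ne hc
  have hfix1 : FixSub c hc ≠ ⊤ := by
    intro h1
    obtain ⟨f, hf⟩ := hom_of_fix hSf hcut hc (fun g => by
      have : g ∈ FixSub c hc := by rw [h1]; trivial
      exact this)
    exact hf (h.no_hom f c)
  have hfix2 : FixSub c⁻¹ hc' ≠ ⊤ := by
    intro h1
    obtain ⟨f, hf⟩ := hom_of_fix hSf hcut.symm hc' (fun g => by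
      have : g ∈ FixSub c⁻¹ hc' := by rw [h1]; trivial
      exact this)
    exact hf (h.no_hom f c⁻¹)
  by_cases hgood : ∃ g, ¬ FixTo c g c ∧ ¬ FixTo c⁻¹ g c⁻¹ ∧ ¬ FixTo c g c⁻¹ ∧ ¬ FixTo c⁻¹ g c
  · -- ping-pong
    obtain ⟨g, h1, h2, h3, h4⟩ := hgood
    obtain ⟨m1, hm1⟩ := exists_sep hSf hcut hcut hc hc h1
    obtain ⟨m2, hm2⟩ := exists_sep hSf hcut.symm hcut.symm hc' hc' h2
    obtain ⟨m3, hm3⟩ := exists_sep hSf hcut hcut.symm hc hc' h3
    obtain ⟨m4, hm4⟩ := exists_sep hSf hcut.symm hcut hc' hc h4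
    set m := max (max m1 m2) (max m3 m4) with hm
    have hm1' := hm1 m ((le_max_left m1 m2).trans (le_max_left _ _))
    have hm2' := hm2 m ((le_max_right m1 m2).trans (le_max_left _ _))
    have hm3' := hm3 m ((le_max_left m3 m4).trans (le_max_right _ _))
    have hm4' := hm4 m ((le_max_right m3 m4).trans (le_max_right _ _))
    let e : ULift.{u} Bool → G := fun b => cond b.down 1 g
    let a : ULift.{u} Bool → G := fun b => (e b)⁻¹ * (c ^ (2 * m))⁻¹ * e b
    let X : ULift.{u} Bool → Set (RAct G) := fun b => {y | ∃ x ∈ A, y.val = x * c ^ m * e b}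
    let Y : ULift.{u} Bool → Set (RAct G) := fun b => {y | ∃ x ∈ Aᶜ, y.val = x * c⁻¹ ^ m * e b}
    refine h.not_free' a (FreeGroup.injective_lift_of_ping_pong a X Y ?_ ?_ ?_ ?_ ?_ ?_)
    · intro b
      obtain ⟨x, hx⟩ := hcut.good.ne
      exact ⟨⟨x * c ^ m * e b⟩, x, hx, rfl⟩
    · intro b b' hbb
      rw [Function.onFun, Set.disjoint_left]
      rintro y ⟨x, hx, h5⟩ ⟨x', hx', h6⟩
      rcases b with ⟨_ | _⟩ <;> rcases b' with ⟨_ | _⟩
      · exact hbb rfl
      · apply hm1' x hx x' hx'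
        simpa [e] using h5.symm.trans h6
      · apply hm1' x' hx' x hx
        simpa [e] using h6.symm.trans h5
      · exact hbb rfl
    · intro b b' hbb
      rw [Function.onFun, Set.disjoint_left]
      rintro y ⟨x, hx, h5⟩ ⟨x', hx', h6⟩
      rcases b with ⟨_ | _⟩ <;> rcases b' with ⟨_ | _⟩
      · exact hbb rfl
      · apply hm2' x hx x' hx'
        simpa [e] using h5.symm.trans h6
      · apply hm2' x' hx' x hx
        simpa [e] using h6.symm.trans h5
      · exact hbb rfl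
    · intro b b'
      rw [Set.disjoint_left]
      rintro y ⟨x, hx, h5⟩ ⟨x', hx', h6⟩
      have hsame : ∀ z : G, x * c ^ m * z = x' * c⁻¹ ^ m * z → False := by
        intro z h7
        have h8 := mul_right_cancel h7
        have h9 : x' = x * c ^ m * c ^ m := by
          rw [h8, inv_pow, inv_mul_cancel_right]
        apply hx'
        rw [h9]
        exact hcut.good.sub_pow (hcut.good.sub_pow hx m) m
      rcases b with ⟨_ | _⟩ <;> rcases b' with ⟨_ | _⟩
      · exact hsame g (h5.symm.trans h6)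
      · apply hm3' x hx x' hx'
        have h7 := h5.symm.trans h6
        simpa [e] using h7
      · apply hm4' x' hx' x hx
        have h7 := h6.symm.trans h5
        simpa [e] using h7
      · exact hsame 1 (h5.symm.trans h6)
    · intro b
      rintro _ ⟨y, hy, rfl⟩
      obtain ⟨y⟩ := y
      have h5 : y * (e b)⁻¹ * c ^ m ∈ A := by
        by_contra h6
        apply hy
        exact ⟨_, h6, by rw [inv_pow]; group⟩
      show ∃ x ∈ A, y * ((e b)⁻¹ * (c ^ (2 * m))⁻¹ * e b)⁻¹ = x * c ^ m * e b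
      refine ⟨_, h5, ?_⟩
      rw [two_mul, pow_add]
      group
    · intro b
      rintro _ ⟨y, hy, rfl⟩
      obtain ⟨y⟩ := y
      have h5 : y * (e b)⁻¹ * c⁻¹ ^ m ∈ Aᶜ := by
        intro h6
        apply hy
        exact ⟨_, h6, by rw [inv_pow]; group⟩
      show ∃ x ∈ Aᶜ, y * ((e b)⁻¹ * (c ^ (2 * m))⁻¹ * e b)⁻¹⁻¹ = x * c⁻¹ ^ m * e b
      refine ⟨_, h5, ?_⟩
      rw [two_mul, pow_add, inv_pow]
      group
  · -- covering by cosets
    push Not at hgood
    obtain ⟨g3, hg3⟩ := exists_coset hc hc'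
    obtain ⟨g4, hg4⟩ := exists_coset hc' hc
    let K : Fin 4 → Subgroup G := ![FixSub c hc, FixSub c⁻¹ hc', FixSub c hc, FixSub c⁻¹ hc']
    let k : Fin 4 → G := ![1, 1, g3, g4]
    have hcov : ⋃ i ∈ (Finset.univ : Finset (Fin 4)), k i • (K i : Set G) = Set.univ := by
      rw [Set.eq_univ_iff_forall]
      intro x
      have key : ∃ i : Fin 4, x ∈ k i • (K i : Set G) := by
        by_cases h1 : FixTo c x⁻¹ c
        · refine ⟨0, ?_⟩
          show x ∈ (1 : G) • (FixSub c hc : Set G)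
          rw [one_smul]
          have h2 := (FixSub c hc).inv_mem (show x⁻¹ ∈ FixSub c hc from h1)
          rwa [inv_inv] at h2
        · by_cases h2 : FixTo c⁻¹ x⁻¹ c⁻¹
          · refine ⟨1, ?_⟩
            show x ∈ (1 : G) • (FixSub c⁻¹ hc' : Set G)
            rw [one_smul]
            have h3 := (FixSub c⁻¹ hc').inv_mem (show x⁻¹ ∈ FixSub c⁻¹ hc' from h2)
            rwa [inv_inv] at h3
          · by_cases h3 : FixTo c x⁻¹ c⁻¹
            · exact ⟨2, hg3 x h3⟩
            · exact ⟨3, hg4 x (hgood x⁻¹ h1 h2 h3)⟩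
      obtain ⟨i, hi⟩ := key
      exact Set.mem_biUnion (Finset.mem_coe.2 (Finset.mem_univ i)) hi
    obtain ⟨i, _, hi⟩ := Subgroup.exists_finiteIndex_of_leftCoset_cover hcov
    have : ∀ i, K i ≠ ⊤ := by
      intro i
      fin_cases i
      · exact hfix1
      · exact hfix2
      · exact hfix1
      · exact hfix2
    exact h.not_virt hcut hc (K i) (this i) hi

end Pool.Agent.Lib.H31.Ends
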