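import Pool.Agent.Lib.H31.Ends.Gen
import Pool.Agent.Lib.H31.Ends.T3b

/-!
# Consequences for groups all of whose proper subgroups are cyclic, and other monsters
-/

namespace Pool.Agent.Lib.H31.Ends

universe u

variable {n : ℕ} {G : Type u} [Group G] {φ : FreeGroup (Fin n) →* G}

theorem Flow.inf_order {X : Type*} (F : Flow φ X) : ∀ k : ℕ, 0 < k → F.c ^ k ≠ 1 := by
  intro k hk h1
  have h2 := F.zpow_ne (D := F.d) (by exact_mod_cast F.hd) F.hc (r := (k : ℤ)) (by omega)
  rw [zpow_natCast, h1, map_one] at h2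
  exact h2 rfl

theorem Flow.not_T3 (hφ : Function.Surjective φ) {X : Type*} (F : Flow φ X) (h : T3 G) :
    False := by
  classical
  have hd : (0 : ℤ) < F.d := by exact_mod_cast F.hd
  have hcinf := F.inf_order
  have hτ : ∀ j k : ℤ, F.τ j F.x = F.τ k F.x → j = k := by
    intro j k hjk
    have h1 := F.ht_τ j F.x
    rw [hjk, F.ht_τ] at h1
    linarith
  -- the stabilizer of `x` is trivial
  have hstab : ∀ g, F.ρ g F.x = F.x → g = 1 := by
    let L : Subgroup G :=
      { carrier := {g | ∃ k : ℤ, F.ρ g F.x = F.τ (k * F.d) F.x}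
        mul_mem' := by
          rintro a b ⟨k, hk⟩ ⟨l, hl⟩
          refine ⟨k + l, ?_⟩
          rw [map_mul, Equiv.Perm.mul_apply, hl, F.comm, hk, F.τ_τ]
          congr 1
          ring
        one_mem' := ⟨0, by rw [map_one, zero_mul, F.τ_zero]; rfl⟩
        inv_mem' := by
          rintro a ⟨k, hk⟩
          refine ⟨-k, ?_⟩
          rw [map_inv, Equiv.Perm.inv_eq_iff_eq, F.comm, hk, F.τ_τ]
          have : k * (F.d : ℤ) + -k * F.d = 0 := by ring
          rw [this, F.τ_zero] }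
    have hcL : F.c ∈ L := ⟨1, by rw [one_mul]; exact F.hc⟩
    by_cases hL : L = ⊤
    · exfalso
      have hall : ∀ g, ∃ k : ℤ, F.ρ g F.x = F.τ (k * F.d) F.x := by
        intro g
        have : g ∈ L := by rw [hL]; trivial
        exact this
      choose κ hκ using hall
      have huniq : ∀ g k, F.ρ g F.x = F.τ (k * F.d) F.x → κ g = k := by
        intro g k hk
        have h1 := hτ _ _ ((hκ g).symm.trans hk)
        exact mul_right_cancel₀ hd.ne' h1
      let π : G →* Multiplicative ℤ :=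
        { toFun := fun g => Multiplicative.ofAdd (κ g)
          map_one' := by
            rw [huniq 1 0 (by rw [map_one, zero_mul, F.τ_zero]; rfl)]
            rfl
          map_mul' := fun a b => by
            rw [← ofAdd_add]
            congr 1
            apply huniq
            rw [map_mul, Equiv.Perm.mul_apply, hκ b, F.comm, hκ a, F.τ_τ]
            congr 1
            ring }
      have h1 := h.no_hom π F.c
      have h2 : κ F.c = 1 := huniq F.c 1 (by rw [one_mul]; exact F.hc)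
      have h3 : π F.c = Multiplicative.ofAdd (κ F.c) := rfl
      rw [h3, h2] at h1
      exact absurd (congrArg Multiplicative.toAdd h1) (by simp)
    · intro g hg
      by_contra hg1
      have hgL : g ∈ L := ⟨0, by rw [zero_mul, F.τ_zero]; exact hg⟩
      obtain ⟨i, j, hi, hij⟩ := exists_zpow_eq (h.cyc L hL) hcL hgL hg1
      apply F.zpow_ne hd F.hc hi
      rw [hij]
      have h1 : ∀ k : ℕ, F.ρ (g ^ k) F.x = F.x := by
        intro k
        induction k with
        | zero => rw [pow_zero, map_one]; rfl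
        | succ k ih => rw [pow_succ, map_mul, Equiv.Perm.mul_apply, hg, ih]
      rcases Int.eq_nat_or_neg j with ⟨k, rfl | rfl⟩
      · rw [zpow_natCast]
        exact h1 k
      · rw [zpow_neg, zpow_natCast, map_inv, Equiv.Perm.inv_eq_iff_eq, h1 k]
  have hinj : Function.Injective (fun g => F.ρ g F.x) := by
    intro a b hab
    have h1 : F.ρ (b⁻¹ * a) F.x = F.x := by
      rw [map_mul, Equiv.Perm.mul_apply, show F.ρ a F.x = F.ρ b F.x from hab, map_inv,
        Equiv.Perm.inv_eq_iff_eq]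
    have h2 := hstab _ h1
    rw [inv_mul_eq_one] at h2
    exact h2.symm
  let A0 : Set G := {g | 0 ≤ F.ht (F.ρ g F.x)}
  have hE : ({g | F.ρ g F.x ∈ F.E} : Set G).Finite :=
    (F.E.finite_toSet.preimage hinj.injOn : _)
  have hup : ∀ t : G, {y | y ∉ A0 ∧ t * y ∈ A0}.Finite := by
    intro t
    obtain ⟨f, hf⟩ := hφ t
    have hT : (⋃ w1 ∈ ({w1 | w1 ∈ f.toWord.tails} : Set (List (Fin n × Bool))),
        (fun y => φ (FreeGroup.mk w1) * y) ⁻¹' {g | F.ρ g F.x ∈ F.E}).Finite := by
      refine (List.finite_toSet f.toWord.tails).biUnion (fun w1 _ => ?_)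
      exact hE.preimage (mul_right_injective _).injOn
    refine hT.subset ?_
    rintro y ⟨hy1, hy2⟩
    have h1 : F.ht (F.ρ y F.x) < 0 := not_le.1 hy1
    have h2 : 0 ≤ F.ht (F.ρ (φ (FreeGroup.mk f.toWord)) (F.ρ y F.x)) := by
      rw [FreeGroup.mk_toWord, hf, ← Equiv.Perm.mul_apply, ← map_mul]
      exact hy2
    obtain ⟨w2, w1, h3, h4⟩ := F.cross _ _ h1 h2
    refine Set.mem_biUnion (x := w1) ?_ ?_
    · show w1 ∈ f.toWord.tails
      rw [List.mem_tails, h3]
      exact List.suffix_append _ _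
    · show F.ρ (φ (FreeGroup.mk w1) * y) F.x ∈ F.E
      rw [map_mul, Equiv.Perm.mul_apply]
      exact h4
  have hAI : AI A0 := by
    intro t
    have h1 := (hup t⁻¹).preimage (f := fun y => t * y) (mul_right_injective t).injOn
    refine ((hup t).union h1).subset ?_
    intro y hy
    simp only [Set.mem_ofPred_eq, Set.mem_union, Set.mem_preimage] at hy ⊢
    rw [inv_mul_cancel_left]
    tauto
  have hhtc : ∀ k : ℤ, F.ht (F.ρ (F.c ^ k) F.x) = F.ht F.x + k * F.d := by
    intro k
    rw [F.zpow_shift F.hc, F.ht_τ]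
  have hgood : Good A0 F.c := by
    refine ⟨hAI, ?_, ⟨F.c ^ (|F.ht F.x|), ?_⟩⟩
    · intro y hy
      show 0 ≤ F.ht (F.ρ (y * F.c) F.x)
      have hy' : 0 ≤ F.ht (F.ρ y F.x) := hy
      rw [map_mul, Equiv.Perm.mul_apply, F.hc, F.comm, F.ht_τ]
      linarith
    · show 0 ≤ F.ht (F.ρ (F.c ^ (|F.ht F.x|)) F.x)
      rw [hhtc]
      have h1 := neg_abs_le (F.ht F.x)
      have h2 := abs_nonneg (F.ht F.x)
      nlinarith
  have hne : A0 ≠ Set.univ := by
    intro h1
    have h2 : F.c ^ (-(|F.ht F.x| + 1)) ∈ A0 := by rw [h1]; trivial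
    have h3 : 0 ≤ F.ht (F.ρ (F.c ^ (-(|F.ht F.x| + 1))) F.x) := h2
    rw [hhtc] at h3
    have h4 := le_abs_self (F.ht F.x)
    have h5 := abs_nonneg (F.ht F.x)
    nlinarith
  let S : Set G := Set.range (fun i : Fin n => φ (FreeGroup.of i))
  have hS : Subgroup.closure S = ⊤ := by
    have h1 : S = φ '' (Set.range (FreeGroup.of : Fin n → FreeGroup (Fin n))) := by
      rw [← Set.range_comp]
      rfl
    rw [h1, ← MonoidHom.map_closure, FreeGroup.closure_range_of, ← MonoidHom.range_eq_map,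
      MonoidHom.range_eq_top.2 hφ]
  obtain ⟨A2, hA2⟩ := exists_cut2 hS hgood hne hcinf
  exact h.no_cut (Set.finite_range _) hA2 hcinf

/-- Balls. -/
def InB (S : Set G) (g : G) (k : ℕ) : Prop :=
  ∃ l : List G, (∀ x ∈ l, x ∈ S ∨ x⁻¹ ∈ S) ∧ l.prod = g ∧ l.length ≤ k

theorem InB.mul {S : Set G} {g h : G} {k m : ℕ} (hg : InB S g k) (hh : InB S h m) :
    InB S (g * h) (k + m) := by
  obtain ⟨l, h1, h2, h3⟩ := hg
  obtain ⟨l', h1', h2', h3'⟩ := hh
  refine ⟨l ++ l', ?_, by rw [List.prod_append, h2, h2'], by rw [List.length_append]; omega⟩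
  intro x hx
  rcases List.mem_append.1 hx with hx | hx
  · exact h1 x hx
  · exact h1' x hx

theorem InB.inv {S : Set G} {g : G} {k : ℕ} (hg : InB S g k) : InB S g⁻¹ k := by
  obtain ⟨l, h1, h2, h3⟩ := hg
  refine ⟨(l.map (·⁻¹)).reverse, ?_, ?_, by simpa using h3⟩
  · intro x hx
    rw [List.mem_reverse, List.mem_map] at hx
    obtain ⟨y, hy, rfl⟩ := hx
    have := h1 y hy
    rw [_root_.inv_inv]
    tauto
  · rw [← h2, List.prod_inv_reverse]

theorem InB.pow {S : Set G} {g : G} {k : ℕ} (hg : InB S g k) (m : ℕ) :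
    InB S (g ^ m) (m * k) := by
  induction m with
  | zero => exact ⟨[], by simp, by simp, by simp⟩
  | succ m ih =>
    rw [pow_succ, Nat.succ_mul]
    exact ih.mul hg

/-- An undistorted element excludes finitely many conjugacy classes. -/
theorem not_finite_conj {S : Set G} (hS : Subgroup.closure S = ⊤) {c : G} {M : ℕ}
    (h : ∀ r k, InB S (c ^ r) k → r ≤ M * k) (hf : Finite (ConjClasses G)) : False := by
  obtain ⟨a, b, hne, hab⟩ := Finite.exists_ne_map_eq_of_infinite
    (fun k : ℕ => ConjClasses.mk (c ^ (2 ^ k)))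
  have main : ∀ a b : ℕ, a < b → ConjClasses.mk (c ^ (2 ^ a)) = ConjClasses.mk (c ^ (2 ^ b)) →
      False := by
    intro a b hlt hab
    rw [ConjClasses.mk_eq_mk_iff_isConj, isConj_iff] at hab
    obtain ⟨g, hg⟩ := hab
    obtain ⟨e, rfl⟩ : ∃ e, b = a + e := ⟨b - a, by omega⟩
    have he : 1 ≤ e := by omega
    have hpow : ∀ k : ℕ, g ^ k * c ^ (2 ^ a) * (g ^ k)⁻¹ = c ^ (2 ^ a * (2 ^ e) ^ k) := by
      intro k
      induction k with
      | zero => simp
      | succ k ih =>
        have h1 : g ^ (k + 1) * c ^ (2 ^ a) * (g ^ (k + 1))⁻¹ =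
            g * (g ^ k * c ^ (2 ^ a) * (g ^ k)⁻¹) * g⁻¹ := by
          rw [pow_succ' g k]
          group
        rw [h1, ih, pow_mul c (2 ^ a), ← conj_pow, hg, ← pow_mul]
        congr 1
        ring
    obtain ⟨lg, h1, h2⟩ := list_of_closure hS g
    obtain ⟨lc, h3, h4⟩ := list_of_closure hS c
    have hgB : InB S g lg.length := ⟨lg, h1, h2, le_rfl⟩
    have hcB : InB S c lc.length := ⟨lc, h3, h4, le_rfl⟩
    have hbound : ∀ k : ℕ, 2 ^ a * (2 ^ e) ^ k ≤
        M * (k * lg.length + 2 ^ a * lc.length + k * lg.length) := by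
      intro k
      apply h
      rw [← hpow k]
      exact ((hgB.pow k).mul (hcB.pow (2 ^ a))).mul (hgB.pow k).inv
    set C := M * (2 * lg.length + 2 ^ a * lc.length) with hC
    have h5 := hbound (2 * (C + 1))
    have h6 : 2 ^ (2 * (C + 1)) ≤ 2 ^ a * (2 ^ e) ^ (2 * (C + 1)) := by
      have h7 : 1 ≤ 2 ^ a := Nat.one_le_two_pow
      have h8 : 2 ^ (2 * (C + 1)) ≤ (2 ^ e) ^ (2 * (C + 1)) := by
        apply Nat.pow_le_pow_left
        calc 2 = 2 ^ 1 := by norm_num
          _ ≤ 2 ^ e := Nat.pow_le_pow_right (by norm_num) he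
      calc 2 ^ (2 * (C + 1)) ≤ (2 ^ e) ^ (2 * (C + 1)) := h8
        _ ≤ 2 ^ a * (2 ^ e) ^ (2 * (C + 1)) := Nat.le_mul_of_pos_left _ (by omega)
    have h9 : M * (2 * (C + 1) * lg.length + 2 ^ a * lc.length + 2 * (C + 1) * lg.length) ≤
        2 * (C + 1) * C := by
      rw [hC]
      have h10 : 2 * (C + 1) * lg.length + 2 ^ a * lc.length + 2 * (C + 1) * lg.length ≤
          2 * (C + 1) * (2 * lg.length + 2 ^ a * lc.length) := by
        have h11 : 2 ^ a * lc.length ≤ 2 * (C + 1) * (2 ^ a * lc.length) :=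
          Nat.le_mul_of_pos_left _ (by omega)
        linarith [Nat.mul_add (2 * (C + 1)) (2 * lg.length) (2 ^ a * lc.length)]
      calc M * (2 * (C + 1) * lg.length + 2 ^ a * lc.length + 2 * (C + 1) * lg.length)
          ≤ M * (2 * (C + 1) * (2 * lg.length + 2 ^ a * lc.length)) := Nat.mul_le_mul_left _ h10
        _ = 2 * (C + 1) * (M * (2 * lg.length + 2 ^ a * lc.length)) := by ring
    have h12 : 2 * (C + 1) ≤ 2 ^ (C + 1) := by
      have h13 : C < 2 ^ C := Nat.lt_two_pow_self
      rw [pow_succ]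
      omega
    have h14 : (2 * (C + 1)) * (2 * (C + 1)) ≤ 2 ^ (2 * (C + 1)) := by
      rw [two_mul (C + 1), pow_add, ← two_mul]
      exact Nat.mul_le_mul h12 h12
    have h15 := (h14.trans h6).trans (h5.trans h9)
    nlinarith
  rcases lt_or_gt_of_ne hne with hlt | hlt
  · exact main a b hlt hab
  · exact main b a hlt hab.symm

end Pool.Agent.Lib.H31.Ends
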