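import Pool.Agent.Lib.H31.Ends.Chain

/-!
# Chains of cuts with respect to an arbitrary finite generating set
-/

namespace Pool.Agent.Lib.H31.Ends

universe u

variable {G : Type u} [Group G]

/-- The vertices of `A` with a neighbour outside `A` in the Schreier graph. -/
def vb (S : Set G) {Ω : Type u} [MulAction G Ω] (A : Set Ω) : Set Ω :=
  {y | y ∈ A ∧ ∃ s ∈ S, s • y ∉ A ∨ s⁻¹ • y ∉ A}

/-- A chain of `N` nested cuts with disjoint vertex boundaries of at most `K` vertices. -/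
def IsCutChain (S : Set G) {Ω : Type u} [MulAction G Ω] (K N : ℕ) (A : Fin N → Set Ω) : Prop :=
  (∀ i j, i < j → A j ⊆ A i) ∧ (∀ i, (A i).Nonempty ∧ A i ≠ Set.univ) ∧
    (∀ i j, i < j → Disjoint (vb S (A i)) (vb S (A j))) ∧
    ∀ i, (vb S (A i)).Finite ∧ (vb S (A i)).ncard ≤ K

theorem mem_vb_of {S : Set G} {Ω : Type u} [MulAction G Ω] {A : Set Ω} {y : Ω} {t : G}
    (hy : y ∈ A) (ht : t ∈ S ∨ t⁻¹ ∈ S) (h : t • y ∉ A) : y ∈ vb S A := by
  refine ⟨hy, ?_⟩
  rcases ht with ht | ht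
  · exact ⟨t, ht, Or.inl h⟩
  · exact ⟨t⁻¹, ht, Or.inr (by rwa [_root_.inv_inv])⟩

theorem exists_list_of_closure {S : Set G} (hS : Subgroup.closure S = ⊤) (g : G) :
    ∃ l : List G, (∀ x ∈ l, x ∈ S ∨ x⁻¹ ∈ S) ∧ l.prod = g := by
  have h1 : g ∈ (Subgroup.closure S).toSubmonoid := by
    rw [hS]
    trivial
  rw [Subgroup.closure_toSubmonoid] at h1
  obtain ⟨l, h2, h3⟩ := Submonoid.exists_list_of_mem_closure h1
  refine ⟨l, fun x hx => ?_, h3⟩
  rcases h2 x hx with h | h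
  · exact Or.inl h
  · exact Or.inr (Set.mem_inv.1 h)

theorem exists_suffix {S : Set G} {Ω : Type u} [MulAction G Ω] {A : Set Ω} {y : Ω}
    (hy : y ∈ A) (l : List G) (hl : ∀ t ∈ l, t ∈ S ∨ t⁻¹ ∈ S) (h : l.prod • y ∉ A) :
    ∃ l', l' ∈ l.tails ∧ l'.prod • y ∈ vb S A := by
  induction l with
  | nil =>
    rw [List.prod_nil, one_smul] at h
    exact absurd hy h
  | cons t l ih =>
    by_cases h1 : l.prod • y ∈ A
    · refine ⟨l, ?_, ?_⟩
      · rw [List.mem_tails]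
        exact List.suffix_cons t l
      · apply mem_vb_of h1 (hl t (List.mem_cons_self ..))
        rwa [List.prod_cons, mul_smul] at h
    · obtain ⟨l', h2, h3⟩ := ih (fun t ht => hl t (List.mem_cons_of_mem _ ht)) h1
      refine ⟨l', ?_, h3⟩
      rw [List.mem_tails] at h2 ⊢
      exact h2.trans (List.suffix_cons t l)

/-- From a chain for a generating set to a chain for the letters. -/
theorem toLChain {n : ℕ} (φ : FreeGroup (Fin n) →* G) {S : Set G}
    (hS : Subgroup.closure S = ⊤) (K : ℕ) : ∃ K' ℓ : ℕ, ∀ (Ω : Type u) [MulAction G Ω] (N : ℕ)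
      (A : Fin (N * ℓ + 1) → Set Ω), IsCutChain S K (N * ℓ + 1) A → ∃ B, LChain φ K' N (Ω := Ω) B := by
  classical
  have h1 : ∀ s : Fin n × Bool, ∃ l : List G, (∀ x ∈ l, x ∈ S ∨ x⁻¹ ∈ S) ∧
      l.prod = φ (FreeGroup.mk [s]) := fun s => exists_list_of_closure hS _
  choose l hl1 hl2 using h1
  obtain ⟨ℓ, hℓ⟩ : ∃ ℓ, ∀ s, (l s).length ≤ ℓ := by
    obtain ⟨ℓ, hℓ⟩ := (Set.finite_range (fun s => (l s).length)).bddAbove
    exact ⟨ℓ, fun s => hℓ ⟨s, rfl⟩⟩
  let W : Finset G := Finset.univ.biUnion (fun s => ((l s).tails.map List.prod).toFinset)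
  refine ⟨W.card * K, ℓ, fun Ω _ N A hA => ?_⟩
  obtain ⟨hA1, hA2, hA3, hA4⟩ := hA
  -- the chain indexed by the natural numbers
  let A' : ℕ → Set Ω := fun k => if h : k < N * ℓ + 1 then A ⟨k, h⟩ else ∅
  have hA' : ∀ k (h : k ≤ N * ℓ), A' k = A ⟨k, Nat.lt_succ_of_le h⟩ := by
    intro k h
    exact dif_pos (Nat.lt_succ_of_le h)
  have hanti : ∀ i j, i ≤ j → j ≤ N * ℓ → A' j ⊆ A' i := by
    intro i j hij hj
    rcases eq_or_lt_of_le hij with rfl | hlt
    · exact le_refl _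
    · rw [hA' i (hij.trans hj), hA' j hj]
      exact hA1 _ _ hlt
  have hstep : ∀ k, k + 1 ≤ N * ℓ → ∀ y ∈ A' (k + 1), ∀ t, (t ∈ S ∨ t⁻¹ ∈ S) → t • y ∈ A' k := by
    intro k hk y hy t ht
    by_contra h
    have hy' := hanti k (k + 1) (Nat.le_succ k) hk hy
    have h1 := mem_vb_of hy' ht h
    have h2 := mem_vb_of hy ht (fun h' => h (hanti k (k + 1) (Nat.le_succ k) hk h'))
    rw [hA' k (by omega)] at h1
    rw [hA' (k + 1) hk] at h2
    exact Set.disjoint_left.1 (hA3 ⟨k, by omega⟩ ⟨k + 1, by omega⟩ (by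
      rw [Fin.mk_lt_mk]
      exact Nat.lt_succ_self k)) h1 h2
  have hlist : ∀ (m : List G), (∀ t ∈ m, t ∈ S ∨ t⁻¹ ∈ S) → ∀ k, k + m.length ≤ N * ℓ →
      ∀ y ∈ A' (k + m.length), m.prod • y ∈ A' k := by
    intro m
    induction m with
    | nil =>
      intro _ k _ y hy
      rw [List.prod_nil, one_smul]
      exact hy
    | cons t m ih =>
      intro hm k hk y hy
      rw [List.length_cons] at hk hy
      have h2 := ih (fun t ht => hm t (List.mem_cons_of_mem _ ht)) (k + 1) (by omega) y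
        (by rwa [show k + 1 + m.length = k + (m.length + 1) by ring])
      rw [List.prod_cons, mul_smul]
      exact hstep k (by omega) _ h2 t (hm t (List.mem_cons_self ..))
  -- the boundary for the letters
  have hbd : ∀ k ≤ N * ℓ, ∃ T : Finset Ω, T.card ≤ W.card * K ∧
      {y | y ∈ A' k ∧ ∃ s, lact φ s y ∉ A' k} ⊆ (T : Set Ω) := by
    intro k hk
    obtain ⟨hf, hc⟩ := hA4 ⟨k, Nat.lt_succ_of_le hk⟩
    rw [← hA' k hk] at hf hc
    refine ⟨(W ×ˢ hf.toFinset).image (fun p => p.1⁻¹ • p.2), ?_, ?_⟩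
    · refine Finset.card_image_le.trans ?_
      rw [Finset.card_product, ← Set.ncard_eq_toFinset_card _ hf]
      exact Nat.mul_le_mul_left _ hc
    · rintro y ⟨hy, s, hs⟩
      rw [lact, ← hl2] at hs
      obtain ⟨l', h3, h4⟩ := exists_suffix hy (l s) (hl1 s) hs
      rw [Finset.mem_coe, Finset.mem_image]
      refine ⟨(l'.prod, l'.prod • y), ?_, inv_smul_smul _ _⟩
      rw [Finset.mem_product]
      refine ⟨?_, hf.mem_toFinset.2 h4⟩
      rw [Finset.mem_biUnion]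
      refine ⟨s, Finset.mem_univ _, ?_⟩
      rw [List.mem_toFinset, List.mem_map]
      exact ⟨l', h3, rfl⟩
  have hmul : ∀ i ≤ N, i * ℓ ≤ N * ℓ := fun i hi => Nat.mul_le_mul_right _ hi
  refine ⟨fun i => A' (i * ℓ), ?_, ?_, ?_, ?_, ?_⟩
  · intro i hi y hy
    have h5 : i * ℓ + ℓ ≤ N * ℓ := by
      have := hmul (i + 1) hi
      rwa [Nat.succ_mul] at this
    rw [Nat.succ_mul] at hy
    refine ⟨hanti _ _ (by omega) h5 hy, fun s => ?_⟩
    rw [lact, ← hl2]
    have h6 := hℓ s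
    exact hlist (l s) (hl1 s) (i * ℓ) (by omega) y (hanti _ _ (by omega) h5 hy)
  · intro i hi
    obtain ⟨T, _, h6⟩ := hbd _ (hmul i hi)
    exact T.finite_toSet.subset h6
  · intro i hi
    obtain ⟨T, h5, h6⟩ := hbd _ (hmul i hi)
    refine (Set.ncard_le_ncard h6 T.finite_toSet).trans ?_
    rwa [Set.ncard_coe_finset]
  · show (A' (N * ℓ)).Nonempty
    rw [hA' _ le_rfl]
    exact (hA2 _).1
  · show A' (0 * ℓ) ≠ Set.univ
    rw [zero_mul, hA' 0 (Nat.zero_le _)]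
    exact (hA2 _).2

/-- In a finitely presented group, long chains of cuts give a flow. -/
theorem exists_flow_of_cutChain {n : ℕ} {φ : FreeGroup (Fin n) →* G}
    (hφ : Function.Surjective φ) {R : Set (FreeGroup (Fin n))} (hRf : R.Finite)
    (hR : Subgroup.normalClosure R = φ.ker) {S : Set G} (hS : Subgroup.closure S = ⊤) (K : ℕ)
    (h : ∀ N : ℕ, ∃ (H : Subgroup G) (A : Fin N → Set (G ⧸ H)), IsCutChain S K N A) :
    ∃ X : Type u, Nonempty (Flow φ X) := by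
  obtain ⟨K', ℓ, h1⟩ := toLChain φ hS K
  obtain ⟨N, h2⟩ := exists_flow_of_chain hφ hRf hR K'
  obtain ⟨H, A, hA⟩ := h (N * ℓ + 1)
  obtain ⟨B, hB⟩ := h1 (G ⧸ H) N A hA
  exact h2 (G ⧸ H) (fun x y => MulAction.exists_smul_eq G x y) B hB

/-- Word lengths for two generating sets. -/
theorem word_of_list {n : ℕ} {φ : FreeGroup (Fin n) →* G} (hφ : Function.Surjective φ)
    {S : Set G} (hS : S.Finite) : ∃ L : ℕ, ∀ l : List G, (∀ x ∈ l, x ∈ S ∨ x⁻¹ ∈ S) →
      ∃ w, φ (FreeGroup.mk w) = l.prod ∧ w.length ≤ L * l.length := by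
  classical
  have h1 : ∀ g : G, ∃ w, φ (FreeGroup.mk w) = g := by
    intro g
    obtain ⟨f, rfl⟩ := hφ g
    exact ⟨f.toWord, by rw [FreeGroup.mk_toWord]⟩
  choose w hw using h1
  have h2 : ({g | g ∈ S ∨ g⁻¹ ∈ S} : Set G).Finite := by
    have : ({g | g ∈ S ∨ g⁻¹ ∈ S} : Set G) = S ∪ S⁻¹ := by
      ext g
      simp
    rw [this]
    exact hS.union hS.inv
  obtain ⟨L, hL⟩ := (h2.image (fun g => (w g).length)).bddAbove
  refine ⟨L, fun l => ?_⟩
  induction l with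
  | nil =>
    intro _
    exact ⟨[], by rw [← FreeGroup.one_eq_mk, map_one, List.prod_nil], by simp⟩
  | cons t l ih =>
    intro hl
    obtain ⟨v, h3, h4⟩ := ih (fun x hx => hl x (List.mem_cons_of_mem _ hx))
    refine ⟨w t ++ v, ?_, ?_⟩
    · rw [← FreeGroup.mul_mk, map_mul, hw, h3, List.prod_cons]
    · have h5 : (w t).length ≤ L := hL ⟨t, hl t (List.mem_cons_self ..), rfl⟩
      rw [List.length_append, List.length_cons]
      linarith [Nat.mul_succ L l.length]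

/-- The element given by a flow. -/
theorem Flow.exists_element {n : ℕ} {φ : FreeGroup (Fin n) →* G} (hφ : Function.Surjective φ)
    {X : Type*} (F : Flow φ X) {S : Set G} (hS : S.Finite) : ∃ M : ℕ,
      (∀ (r : ℕ) (l : List G), (∀ x ∈ l, x ∈ S ∨ x⁻¹ ∈ S) → l.prod = F.c ^ r →
        r ≤ M * l.length) ∧
      ∀ (h : G) (m e : ℕ), 0 < e → h ^ m = F.c ^ e → m ≤ M * e := by
  obtain ⟨L, hL⟩ := word_of_list hφ hS
  obtain ⟨K, hK⟩ := F.roots hφ
  refine ⟨max L K, fun r l hl h => ?_, fun h m e he hm => ?_⟩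
  · obtain ⟨w, h1, h2⟩ := hL l hl
    have h3 := F.lower (h.symm.trans h1.symm)
    exact h3.trans (h2.trans (Nat.mul_le_mul_right _ (le_max_left _ _)))
  · exact (hK h m e he hm).trans (Nat.mul_le_mul_right _ (le_max_right _ _))

end Pool.Agent.Lib.H31.Ends
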