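import Mathlib

/-!
# Cut and paste of group actions given by finitely many relators

A system of letters acting on a set is cut along two nested cuts of the same local type; the
region between them is repeated periodically.
-/

namespace Pool.Agent.Lib.H31.Ends

section Run

variable {ι : Type*} {Ω : Type*}

/-- The inverse letter. -/
def inv (s : ι × Bool) : ι × Bool := (s.1, !s.2)

@[simp] theorem inv_inv (s : ι × Bool) : inv (inv s) = s := by simp [inv]

/-- A word acts, the last letter first. -/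
def run (st : ι × Bool → Ω → Ω) (w : List (ι × Bool)) (y : Ω) : Ω := w.foldr st y

@[simp] theorem run_nil (st : ι × Bool → Ω → Ω) (y : Ω) : run st [] y = y := rfl

@[simp] theorem run_cons (st : ι × Bool → Ω → Ω) (s : ι × Bool) (w : List (ι × Bool)) (y : Ω) :
    run st (s :: w) y = st s (run st w y) := rfl

theorem run_append (st : ι × Bool → Ω → Ω) (v w : List (ι × Bool)) (y : Ω) :
    run st (v ++ w) y = run st v (run st w y) := by
  simp [run]

/-- The inverse word. -/
def invw (w : List (ι × Bool)) : List (ι × Bool) := (w.map inv).reverse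

@[simp] theorem invw_nil : invw ([] : List (ι × Bool)) = [] := rfl

theorem invw_cons (s : ι × Bool) (w : List (ι × Bool)) : invw (s :: w) = invw w ++ [inv s] := by
  simp [invw]

@[simp] theorem length_invw (w : List (ι × Bool)) : (invw w).length = w.length := by
  simp [invw]

@[simp] theorem invw_invw (w : List (ι × Bool)) : invw (invw w) = w := by
  simp [invw, Function.comp_def]

theorem run_invw {st : ι × Bool → Ω → Ω} (hst : ∀ s y, st (inv s) (st s y) = y)
    (w : List (ι × Bool)) (y : Ω) : run st (invw w) (run st w y) = y := by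
  induction w generalizing y with
  | nil => rfl
  | cons s w ih =>
    rw [invw_cons, run_append, run_cons, run_cons, run_nil, hst, ih]

theorem run_invw' {st : ι × Bool → Ω → Ω} (hst : ∀ s y, st (inv s) (st s y) = y)
    (w : List (ι × Bool)) (y : Ω) : run st w (run st (invw w) y) = y := by
  have := run_invw hst (invw w) y
  rwa [invw_invw] at this

end Run

section Glue

variable {ι Ω κ : Type*}

open Classical in
/-- An index of a point in a family. -/
noncomputable def idx [Inhabited κ] (b : κ → Ω) (y : Ω) : κ :=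
  if h : ∃ a, b a = y then h.choose else default

theorem idx_spec [Inhabited κ] (b : κ → Ω) {y : Ω} (h : ∃ a, b a = y) : b (idx b y) = y := by
  unfold idx
  rw [dif_pos h]
  exact h.choose_spec

open Classical in
/-- The periodic system obtained from the region between the cuts `A ⊇ A'`. -/
noncomputable def glue [Inhabited κ] (st : ι × Bool → Ω → Ω) (A A' : Set Ω) (b b' : κ → Ω)
    (s : ι × Bool) (p : Ω × ℤ) : Ω × ℤ :=
  if st s p.1 ∈ A' then (b (idx b' (st s p.1)), p.2 + 1)
  else if st s p.1 ∈ A then (st s p.1, p.2)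
  else (st s (b' (idx b p.1)), p.2 - 1)

/-- Two nested cuts `A ⊇ A'`, with enumerations `b`, `b'` of their vertex boundaries, which have
the same local type up to radius `M` and are at distance more than `M`. -/
structure CutPair (st : ι × Bool → Ω → Ω) (M : ℕ) (A A' : Set Ω) (b b' : κ → Ω) : Prop where
  hst : ∀ s y, st (inv s) (st s y) = y
  sub : A' ⊆ A
  bA : ∀ y, (∃ a, b a = y) ↔ y ∈ A ∧ ∃ s, st s y ∉ A
  bA' : ∀ y, (∃ a, b' a = y) ↔ y ∈ A' ∧ ∃ s, st s y ∉ A'
  ty : ∀ a a' w, w.length ≤ M → (run st w (b a) = b a' ↔ run st w (b' a) = b' a')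
  mem : ∀ a w, w.length ≤ M → (run st w (b a) ∈ A ↔ run st w (b' a) ∈ A')
  far : ∀ a w, w.length ≤ M → run st w (b a) ∉ A'
  far' : ∀ a w, w.length ≤ M → run st w (b' a) ∈ A

namespace CutPair

variable [Inhabited κ] {st : ι × Bool → Ω → Ω} {M : ℕ} {A A' : Set Ω} {b b' : κ → Ω}

theorem hst' (P : CutPair st M A A' b b') (s : ι × Bool) (y : Ω) :
    st s (st (inv s) y) = y := by
  have := P.hst (inv s) y
  rwa [inv_inv] at this

theorem b_mem (P : CutPair st M A A' b b') (a : κ) : b a ∈ A := ((P.bA _).1 ⟨a, rfl⟩).1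

theorem b'_mem (P : CutPair st M A A' b b') (a : κ) : b' a ∈ A' := ((P.bA' _).1 ⟨a, rfl⟩).1

theorem b_notMem (P : CutPair st M A A' b b') (a : κ) : b a ∉ A' := P.far a [] (Nat.zero_le _)

theorem ty0 (P : CutPair st M A A' b b') (a a' : κ) : b a = b a' ↔ b' a = b' a' :=
  P.ty a a' [] (Nat.zero_le _)

/-- Crossing the upper boundary of a copy. -/
theorem glue_up (P : CutPair st M A A' b b') {s : ι × Bool} {y : Ω} {a : κ} (n : ℤ)
    (h : st s y = b' a) : glue st A A' b b' s (y, n) = (b a, n + 1) := by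
  unfold glue
  have h1 : st s (y, n).1 ∈ A' := by
    show st s y ∈ A'
    rw [h]
    exact P.b'_mem a
  rw [if_pos h1]
  have h2 : b' (idx b' (st s y)) = b' a := by
    rw [h]
    exact idx_spec b' ⟨a, rfl⟩
  show (b (idx b' (st s y)), n + 1) = (b a, n + 1)
  rw [(P.ty0 _ _).2 h2]

/-- Moving inside a copy. -/
theorem glue_mid (_P : CutPair st M A A' b b') {s : ι × Bool} {y : Ω} (n : ℤ)
    (h : st s y ∈ A) (h' : st s y ∉ A') : glue st A A' b b' s (y, n) = (st s y, n) := by
  unfold glue
  rw [if_neg (show ¬ st s (y, n).1 ∈ A' from h'), if_pos (show st s (y, n).1 ∈ A from h)]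

/-- Crossing the lower boundary of a copy. -/
theorem glue_down (P : CutPair st M A A' b b') {s : ι × Bool} {a : κ} (n : ℤ)
    (h : st s (b a) ∉ A) : glue st A A' b b' s (b a, n) = (st s (b' a), n - 1) := by
  unfold glue
  rw [if_neg (show ¬ st s (b a, n).1 ∈ A' from fun h' => h (P.sub h')),
    if_neg (show ¬ st s (b a, n).1 ∈ A from h)]
  have h2 : b (idx b (b a)) = b a := idx_spec b ⟨a, rfl⟩
  show (st s (b' (idx b (b a))), n - 1) = _
  rw [(P.ty0 _ _).1 h2]

/-- The three cases of a move from a point of the glued set. -/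
theorem cases (P : CutPair st M A A' b b') (hM : 1 ≤ M) (s : ι × Bool) {y : Ω} (hy : y ∈ A)
    (hy' : y ∉ A') (n : ℤ) :
    (∃ a, st s y = b' a ∧ glue st A A' b b' s (y, n) = (b a, n + 1)) ∨
    (st s y ∈ A ∧ st s y ∉ A' ∧ glue st A A' b b' s (y, n) = (st s y, n)) ∨
    (∃ a, y = b a ∧ st s (b a) ∉ A ∧ st s (b' a) ∈ A ∧ st s (b' a) ∉ A' ∧
      glue st A A' b b' s (y, n) = (st s (b' a), n - 1)) := by
  by_cases h1 : st s y ∈ A'
  · left
    obtain ⟨a, ha⟩ := (P.bA' (st s y)).2 ⟨h1, inv s, by rwa [P.hst]⟩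
    exact ⟨a, ha.symm, P.glue_up n ha.symm⟩
  · right
    by_cases h2 : st s y ∈ A
    · left
      exact ⟨h2, h1, P.glue_mid n h2 h1⟩
    · right
      obtain ⟨a, ha⟩ := (P.bA y).2 ⟨hy, s, h2⟩
      subst ha
      refine ⟨a, rfl, h2, P.far' a [s] (by simpa using hM), ?_, P.glue_down n h2⟩
      have := P.mem a [s] (by simpa using hM)
      exact fun h => h2 (this.2 h)

theorem glue_mem (P : CutPair st M A A' b b') (hM : 1 ≤ M) (s : ι × Bool) {p : Ω × ℤ}
    (hp : p.1 ∈ A ∧ p.1 ∉ A') :
    (glue st A A' b b' s p).1 ∈ A ∧ (glue st A A' b b' s p).1 ∉ A' := by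
  obtain ⟨y, n⟩ := p
  rcases P.cases hM s hp.1 hp.2 n with ⟨a, _, h⟩ | ⟨h1, h2, h⟩ | ⟨a, _, _, h1, h2, h⟩
  · rw [h]
    exact ⟨P.b_mem a, P.b_notMem a⟩
  · rw [h]
    exact ⟨h1, h2⟩
  · rw [h]
    exact ⟨h1, h2⟩

theorem glue_inv (P : CutPair st M A A' b b') (hM : 1 ≤ M) (s : ι × Bool) {p : Ω × ℤ}
    (hp : p.1 ∈ A ∧ p.1 ∉ A') :
    glue st A A' b b' (inv s) (glue st A A' b b' s p) = p := by
  obtain ⟨y, n⟩ := p
  rcases P.cases hM s hp.1 hp.2 n with ⟨a, ha, h⟩ | ⟨h1, h2, h⟩ | ⟨a, ha, h0, h1, h2, h⟩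
  · rw [h]
    have h1 : st (inv s) (b' a) = y := by rw [← ha, P.hst]
    have h2 : st (inv s) (b a) ∉ A := by
      have := P.mem a [inv s] (by simpa using hM)
      intro h3
      have h4 := this.1 h3
      rw [run_cons, run_nil, h1] at h4
      exact hp.2 h4
    rw [P.glue_down (n + 1) h2, h1]
    simp
  · rw [h]
    have h3 : st (inv s) (st s y) = y := P.hst s y
    rw [P.glue_mid n (by rw [h3]; exact hp.1) (by rw [h3]; exact hp.2), h3]
  · rw [h]
    have h3 : st (inv s) (st s (b' a)) = b' a := P.hst s _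
    rw [P.glue_up (n - 1) h3]
    have h4 : y = b a := ha
    rw [h4]
    simp

theorem glue_fst_le (P : CutPair st M A A' b b') (hM : 1 ≤ M) (s : ι × Bool) {p : Ω × ℤ}
    (hp : p.1 ∈ A ∧ p.1 ∉ A') :
    (glue st A A' b b' s p).2 ≤ p.2 + 1 ∧ p.2 - 1 ≤ (glue st A A' b b' s p).2 := by
  obtain ⟨y, n⟩ := p
  rcases P.cases hM s hp.1 hp.2 n with ⟨a, ha, h⟩ | ⟨h1, h2, h⟩ | ⟨a, ha, h0, h1, h2, h⟩ <;>
  · rw [h]
    dsimp only
    omega

/-- The action of short words at the boundary points of the copies. -/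
theorem run_glue (P : CutPair st M A A' b b') (w : List (ι × Bool)) (hw : w.length ≤ M) (a : κ)
    (n : ℤ) :
    (run st w (b a) ∈ A → run (glue st A A' b b') w (b a, n) = (run st w (b a), n)) ∧
    (run st w (b a) ∉ A → run (glue st A A' b b') w (b a, n) = (run st w (b' a), n - 1)) := by
  induction w with
  | nil =>
    refine ⟨fun _ => rfl, fun h => absurd (P.b_mem a) h⟩
  | cons s w ih =>
    have hw' : w.length ≤ M := by
      simp only [List.length_cons] at hw
      omega
    obtain ⟨ih1, ih2⟩ := ih hw'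
    by_cases h1 : run st w (b a) ∈ A
    · have h2 := ih1 h1
      constructor
      · intro h3
        rw [run_cons, h2, run_cons]
        exact P.glue_mid n h3 (P.far a (s :: w) hw)
      · intro h3
        obtain ⟨a', ha'⟩ := (P.bA (run st w (b a))).2 ⟨h1, s, h3⟩
        have h4 := (P.ty a a' w hw').1 ha'.symm
        rw [run_cons, h2, run_cons, h4, ← ha']
        apply P.glue_down n
        rw [ha']
        exact h3
    · have h2 := ih2 h1
      have h1' : run st w (b' a) ∉ A' := fun h => h1 ((P.mem a w hw').2 h)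
      constructor
      · intro h3
        have h3' : run st (s :: w) (b' a) ∈ A' := (P.mem a (s :: w) hw).1 h3
        obtain ⟨a', ha'⟩ := (P.bA' (run st (s :: w) (b' a))).2 ⟨h3', inv s, by
          rw [run_cons, P.hst]
          exact h1'⟩
        have h4 := (P.ty a a' (s :: w) hw).2 ha'.symm
        rw [run_cons, h2, h4]
        have h5 := P.glue_up (n - 1) (s := s) (y := run st w (b' a)) (a := a') ha'.symm
        rw [h5]
        simp
      · intro h3
        have h3' : run st (s :: w) (b' a) ∉ A' := fun h => h3 ((P.mem a (s :: w) hw).2 h)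
        rw [run_cons, h2]
        exact P.glue_mid (n - 1) (P.far' a (s :: w) hw) h3'

/-- A path in the glued set stays in its copy or passes through a boundary point. -/
theorem run_or (P : CutPair st M A A' b b') (hM : 1 ≤ M) (w : List (ι × Bool)) {y : Ω}
    (hy : y ∈ A) (hy' : y ∉ A') (n : ℤ) :
    (run (glue st A A' b b') w (y, n) = (run st w y, n) ∧ run st w y ∈ A ∧ run st w y ∉ A') ∨
    ∃ w2 w1 a m, w = w2 ++ w1 ∧ run (glue st A A' b b') w1 (y, n) = (b a, m) := by
  induction w with
  | nil => exact Or.inl ⟨rfl, hy, hy'⟩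
  | cons s w ih =>
    rcases ih with ⟨h1, h2, h3⟩ | ⟨w2, w1, a, m, h1, h2⟩
    · rcases P.cases hM s h2 h3 n with ⟨a, ha, h⟩ | ⟨h4, h5, h⟩ | ⟨a, ha, h0, h4, h5, h⟩
      · right
        refine ⟨[], s :: w, a, n + 1, rfl, ?_⟩
        rw [run_cons, h1, h]
      · left
        rw [run_cons, h1, h]
        exact ⟨rfl, h4, h5⟩
      · right
        refine ⟨[s], w, a, n, rfl, ?_⟩
        rw [h1, ha]
    · right
      exact ⟨s :: w2, w1, a, m, by rw [h1]; rfl, h2⟩

theorem run_mem (P : CutPair st M A A' b b') (hM : 1 ≤ M) (w : List (ι × Bool)) {p : Ω × ℤ}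
    (hp : p.1 ∈ A ∧ p.1 ∉ A') :
    (run (glue st A A' b b') w p).1 ∈ A ∧ (run (glue st A A' b b') w p).1 ∉ A' := by
  induction w with
  | nil => exact hp
  | cons s w ih =>
    rw [run_cons]
    exact P.glue_mem hM s ih

theorem run_invw_glue (P : CutPair st M A A' b b') (hM : 1 ≤ M) (w : List (ι × Bool))
    {p : Ω × ℤ} (hp : p.1 ∈ A ∧ p.1 ∉ A') :
    run (glue st A A' b b') (invw w) (run (glue st A A' b b') w p) = p := by
  induction w with
  | nil => rfl
  | cons s w ih =>
    rw [invw_cons, run_append, run_cons, run_cons, run_nil,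
      P.glue_inv hM s (P.run_mem hM w hp), ih]

/-- A relator acts trivially on the glued set. -/
theorem run_relator (P : CutPair st M A A' b b') (hM : 1 ≤ M) (r : List (ι × Bool))
    (hr : r.length ≤ M) (h : ∀ y, run st r y = y) {p : Ω × ℤ} (hp : p.1 ∈ A ∧ p.1 ∉ A') :
    run (glue st A A' b b') r p = p := by
  obtain ⟨y, n⟩ := p
  rcases P.run_or hM r hp.1 hp.2 n with ⟨h1, _, _⟩ | ⟨w2, w1, a, m, h1, h2⟩
  · rw [h1, h]
  · have hl : w2.length ≤ M ∧ (invw w1).length ≤ M := by
      rw [length_invw]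
      rw [h1, List.length_append] at hr
      omega
    have h3 : ∀ z, run st w2 z = run st (invw w1) z := by
      intro z
      have h4 := h (run st (invw w1) z)
      rw [h1, run_append, run_invw' P.hst] at h4
      exact h4
    have h5 : run (glue st A A' b b') w2 (b a, m) =
        run (glue st A A' b b') (invw w1) (b a, m) := by
      obtain ⟨h6, h7⟩ := P.run_glue w2 hl.1 a m
      obtain ⟨h8, h9⟩ := P.run_glue (invw w1) hl.2 a m
      by_cases h10 : run st w2 (b a) ∈ A
      · rw [h6 h10, h8 (by rw [← h3]; exact h10), h3]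
      · rw [h7 h10, h9 (by rw [← h3]; exact h10), h3]
    rw [h1, run_append, h2, h5, ← h2]
    exact P.run_invw_glue hM w1 hp

/-- Shifting the copies commutes with the letters. -/
theorem glue_shift (st : ι × Bool → Ω → Ω) (A A' : Set Ω) (b b' : κ → Ω) (s : ι × Bool)
    (y : Ω) (n k : ℤ) : glue st A A' b b' s (y, n + k) =
      ((glue st A A' b b' s (y, n)).1, (glue st A A' b b' s (y, n)).2 + k) := by
  unfold glue
  dsimp only
  split_ifs
  · simp only [Prod.mk.injEq, true_and]
    ring
  · rfl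
  · simp only [Prod.mk.injEq, true_and]
    ring

theorem run_shift (st : ι × Bool → Ω → Ω) (A A' : Set Ω) (b b' : κ → Ω) (w : List (ι × Bool))
    (y : Ω) (n k : ℤ) : run (glue st A A' b b') w (y, n + k) =
      ((run (glue st A A' b b') w (y, n)).1, (run (glue st A A' b b') w (y, n)).2 + k) := by
  induction w with
  | nil => rfl
  | cons s w ih =>
    rw [run_cons, ih, glue_shift, run_cons]

end CutPair

end Glue

end Pool.Agent.Lib.H31.Ends
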