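import Pool.Agent.Lib.H31.Ends.Cuts

/-!
# Groups all of whose proper subgroups are cyclic have no translated cuts
-/

namespace Pool.Agent.Lib.H31.Ends

variable {G : Type*} [Group G]

/-- Noncyclic groups all of whose proper subgroups are cyclic. -/
structure T3 (G : Type*) [Group G] : Prop where
  nc : ¬ IsCyclic G
  cyc : ∀ H : Subgroup G, H ≠ ⊤ → IsCyclic H

/-- Two elements of a cyclic subgroup have a common power. -/
theorem exists_zpow_eq {H : Subgroup G} (hH : IsCyclic H) {a b : G} (ha : a ∈ H) (hb : b ∈ H)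
    (hb1 : b ≠ 1) : ∃ i j : ℤ, i ≠ 0 ∧ a ^ i = b ^ j := by
  obtain ⟨⟨z, hz⟩, hz'⟩ := hH.exists_generator
  obtain ⟨j, hj⟩ := hz' ⟨a, ha⟩
  obtain ⟨i, hi⟩ := hz' ⟨b, hb⟩
  have h1 : z ^ j = a := congrArg Subtype.val hj
  have h2 : z ^ i = b := congrArg Subtype.val hi
  refine ⟨i, j, ?_, ?_⟩
  · rintro rfl
    exact hb1 (by rw [← h2, zpow_zero])
  · rw [← h1, ← h2, ← zpow_mul, ← zpow_mul, mul_comm]

/-- A group of type `T3` has no nontrivial homomorphism to `ℤ`. -/
theorem T3.no_hom (h : T3 G) (f : G →* Multiplicative ℤ) (c : G) : f c = 1 := by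
  by_contra hc
  have hpow : ∀ k : ℤ, k ≠ 0 → f c ^ k ≠ 1 := by
    intro k hk h1
    apply hc
    have h2 : k * (Multiplicative.toAdd (f c)) = 0 := by
      have := congrArg Multiplicative.toAdd h1
      simpa using this
    rcases mul_eq_zero.1 h2 with h3 | h3
    · exact absurd h3 hk
    · exact h3
  let L : Subgroup G := (Subgroup.zpowers (f c ^ 2)).comap f
  have hcL : c ∉ L := by
    rintro ⟨k, hk⟩
    have h1 : f c ^ (2 * k - 1) = 1 := by
      have h2 : (f c ^ 2) ^ k = f c := hk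
      rw [zpow_sub_one, zpow_mul]
      have h3 : (f c ^ (2 : ℤ)) ^ k = f c := by exact_mod_cast h2
      rw [h3, mul_inv_cancel]
    exact hpow (2 * k - 1) (by omega) h1
  have hL : L ≠ ⊤ := fun h1 => hcL (by rw [h1]; trivial)
  have hcy := h.cyc L hL
  have hc2 : c ^ 2 ∈ L := by
    rw [Subgroup.mem_comap, map_pow]
    exact Subgroup.mem_zpowers _
  have hinj : Function.Injective f := by
    rw [injective_iff_map_eq_one]
    intro x hx
    by_contra hx1
    have hxL : x ∈ L := by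
      rw [Subgroup.mem_comap, hx]
      exact Subgroup.one_mem _
    obtain ⟨i, j, hi, hij⟩ := exists_zpow_eq hcy hc2 hxL hx1
    have h2 : f c ^ (2 * i) = 1 := by
      have h3 := congrArg f hij
      rw [map_zpow, map_pow, map_zpow, hx, one_zpow] at h3
      rw [zpow_mul]
      exact_mod_cast h3
    exact hpow (2 * i) (by omega) h2
  exact h.nc (isCyclic_of_injective f hinj)

/-- The index of two commensurable sets. -/
noncomputable def ind (P Q : Set G) : ℤ := ((P \ Q).ncard : ℤ) - ((Q \ P).ncard : ℤ)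

theorem ind_eq {P Q U : Set G} (hU : U.Finite) (h1 : P \ Q ⊆ U) (h2 : Q \ P ⊆ U) :
    ind P Q = ((P ∩ U).ncard : ℤ) - ((Q ∩ U).ncard : ℤ) := by
  have hP : (P ∩ U).Finite := hU.subset Set.inter_subset_right
  have hQ : (Q ∩ U).Finite := hU.subset Set.inter_subset_right
  have e1 : (P ∩ U).ncard = (P ∩ U ∩ (Q ∩ U)).ncard + ((P ∩ U) \ (Q ∩ U)).ncard :=
    (Set.ncard_inter_add_ncard_sdiff_eq_ncard _ _ hP).symm
  have e2 : (Q ∩ U).ncard = (Q ∩ U ∩ (P ∩ U)).ncard + ((Q ∩ U) \ (P ∩ U)).ncard :=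
    (Set.ncard_inter_add_ncard_sdiff_eq_ncard _ _ hQ).symm
  have e3 : (P ∩ U) \ (Q ∩ U) = P \ Q := by
    ext x
    have := @h1 x
    simp only [Set.mem_sdiff, Set.mem_inter_iff] at this ⊢
    tauto
  have e4 : (Q ∩ U) \ (P ∩ U) = Q \ P := by
    ext x
    have := @h2 x
    simp only [Set.mem_sdiff, Set.mem_inter_iff] at this ⊢
    tauto
  rw [e3] at e1
  rw [e4, Set.inter_comm (Q ∩ U)] at e2
  unfold ind
  rw [e1, e2]
  push_cast
  ring

theorem ind_add {P Q R : Set G} (h1 : (P \ Q).Finite) (h2 : (Q \ P).Finite)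
    (h3 : (Q \ R).Finite) (h4 : (R \ Q).Finite) : ind P R = ind P Q + ind Q R := by
  have hU : ((P \ Q) ∪ (Q \ P) ∪ (Q \ R) ∪ (R \ Q)).Finite := ((h1.union h2).union h3).union h4
  have e1 := ind_eq (P := P) (Q := Q) hU (by intro x hx; simp [hx.1, hx.2])
    (by intro x hx; simp [hx.1, hx.2])
  have e2 := ind_eq (P := Q) (Q := R) hU (by intro x hx; simp [hx.1, hx.2])
    (by intro x hx; simp [hx.1, hx.2])
  have e3 := ind_eq (P := P) (Q := R) hU
    (by
      intro x hx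
      by_cases h : x ∈ Q
      · simp [hx.2, h]
      · simp [hx.1, h])
    (by
      intro x hx
      by_cases h : x ∈ Q
      · simp [hx.2, h]
      · simp [hx.1, h])
  rw [e1, e2, e3]
  ring

theorem ind_image {P Q : Set G} (e : G ≃ G) : ind (e '' P) (e '' Q) = ind P Q := by
  unfold ind
  rw [← Set.image_sdiff e.injective, ← Set.image_sdiff e.injective,
    Set.ncard_image_of_injective _ e.injective, Set.ncard_image_of_injective _ e.injective]

/-- The transfer homomorphism of a commensurated set, for an action by bijections. -/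
theorem exists_transfer (ψ : G →* Equiv.Perm G) (P : Set G)
    (h : ∀ g, (P \ (ψ g '' P)).Finite) :
    ∃ f : G →* Multiplicative ℤ, ∀ g, f g = Multiplicative.ofAdd (ind P (ψ g '' P)) := by
  have h' : ∀ g, ((ψ g '' P) \ P).Finite := by
    intro g
    have h1 := (h g⁻¹).image (ψ g)
    rw [Set.image_sdiff (ψ g).injective, ← Set.image_comp] at h1
    have h2 : (ψ g ∘ ψ g⁻¹ : G → G) = id := by
      funext x
      simp
    rwa [h2, Set.image_id] at h1
  refine ⟨{ toFun := fun g => Multiplicative.ofAdd (ind P (ψ g '' P)), map_one' := ?_,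
            map_mul' := ?_ }, fun g => rfl⟩
  · rw [map_one]
    have : ((1 : Equiv.Perm G) : G → G) '' P = P := by
      simp
    rw [this]
    unfold ind
    simp
  · intro g g'
    rw [← ofAdd_add]
    congr 1
    have e1 : ψ (g * g') '' P = ψ g '' (ψ g' '' P) := by
      rw [map_mul, ← Set.image_comp]
      rfl
    have e2 : ind (ψ g '' P) (ψ g '' (ψ g' '' P)) = ind P (ψ g' '' P) := ind_image (ψ g)
    rw [e1, ← e2]
    apply ind_add (h g) (h' g)
    · rw [← Set.image_sdiff (ψ g).injective]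
      exact (h g').image _
    · rw [← Set.image_sdiff (ψ g).injective]
      exact (h' g').image _

/-! ### Stabilizers of ends -/

/-- The end of `c ^ n * g` is the end of `c' ^ n`. -/
def FixTo (c g c' : G) : Prop := ∀ W, AI W → EvIn c' 1 W → EvIn c g W

theorem evIn_rtr {c g h : G} {W : Set G} : EvIn c g (rtr W h) ↔ EvIn c (g * h) W := by
  simp only [EvIn, rtr, Set.mem_ofPred_eq, mul_assoc]

theorem fixTo_mul {c g h : G} (hg : FixTo c g c) (hh : FixTo c h c) : FixTo c (g * h) c := by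
  intro W hW hE
  rw [← evIn_rtr]
  apply hg _ (hW.rtr h)
  rw [evIn_rtr, one_mul]
  exact hh W hW hE

theorem fixTo_inv {c g : G} (hc : ∀ n : ℕ, 0 < n → c ^ n ≠ 1) (hg : FixTo c g c) :
    FixTo c g⁻¹ c := by
  intro W hW hE
  rcases evIn_dich hW hc g⁻¹ with h | h
  · exact h
  · exfalso
    have h1 : EvIn c 1 (rtr Wᶜ g⁻¹) := by rwa [evIn_rtr, one_mul]
    have h2 := hg _ (hW.compl.rtr g⁻¹) h1
    rw [evIn_rtr, mul_inv_cancel] at h2
    exact hE.not_compl h2

/-- The stabilizer of the end of `c`. -/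
def FixSub (c : G) (hc : ∀ n : ℕ, 0 < n → c ^ n ≠ 1) : Subgroup G where
  carrier := {g | FixTo c g c}
  mul_mem' := fun hg hh => fixTo_mul hg hh
  one_mem' := fun _ _ hE => hE
  inv_mem' := fun hg => fixTo_inv hc hg

theorem self_mem_fixSub (c : G) (hc : ∀ n : ℕ, 0 < n → c ^ n ≠ 1) : c ∈ FixSub c hc := by
  intro W _ ⟨n0, hn0⟩
  refine ⟨n0, fun n hn => ?_⟩
  have := hn0 (n + 1) (by omega)
  rwa [mul_one, pow_succ] at this

theorem fixTo_coset {c c' g g0 : G} (hc' : ∀ n : ℕ, 0 < n → c' ^ n ≠ 1)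
    (hg : FixTo c g c') (hg0 : FixTo c g0 c') : FixTo c (g * g0⁻¹) c := by
  intro W hW hE
  have hW' : AI (rtr W g0⁻¹) := hW.rtr g0⁻¹
  rcases evIn_dich hW' hc' 1 with h | h
  · have h1 := hg _ hW' h
    rwa [evIn_rtr] at h1
  · exfalso
    have h1 := hg0 _ hW'.compl h
    have h2 : EvIn c g0 (rtr Wᶜ g0⁻¹) := h1
    rw [evIn_rtr, mul_inv_cancel] at h2
    exact hE.not_compl h2

theorem exists_sep {S : Set G} (hSf : S.Finite) {A A' : Set G} {c c' g : G}
    (h : Cut2 S A c) (h' : Cut2 S A' c') (hc : ∀ n : ℕ, 0 < n → c ^ n ≠ 1)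
    (hc' : ∀ n : ℕ, 0 < n → c' ^ n ≠ 1) (hg : ¬ FixTo c g c') :
    ∃ m0 : ℕ, ∀ m, m0 ≤ m → ∀ y ∈ A, ∀ y' ∈ A', y * c ^ m * g ≠ y' * c' ^ m := by
  unfold FixTo at hg
  push Not at hg
  obtain ⟨W, hW, hE, hn⟩ := hg
  have hn' : EvIn c g Wᶜ := (evIn_dich hW hc g).resolve_left hn
  obtain ⟨m1, hm1⟩ := h'.absorb hSf hc' hW hE
  obtain ⟨m2, hm2⟩ := h.absorb hSf hc (hW.compl.rtr g) (by rwa [evIn_rtr, one_mul])
  refine ⟨max m1 m2, fun m hm y hy y' hy' heq => ?_⟩
  have h1 := hm1 m ((le_max_left _ _).trans hm) y' hy'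
  have h2 : y * c ^ m * g ∈ Wᶜ := hm2 m ((le_max_right _ _).trans hm) y hy
  rw [heq] at h2
  exact h2 h1

/-- The boundary of an almost invariant set is finite. -/
theorem bd_finite {S : Set G} (hSf : S.Finite) {W : Set G} (hW : AI W) :
    ({y | ∃ t, (t ∈ S ∨ t⁻¹ ∈ S) ∧ ¬ (y ∈ W ↔ t * y ∈ W)} : Set G).Finite := by
  have hS' : ({t | t ∈ S ∨ t⁻¹ ∈ S} : Set G).Finite := by
    have : ({t | t ∈ S ∨ t⁻¹ ∈ S} : Set G) = S ∪ S⁻¹ := by
      ext g
      simp
    rw [this]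
    exact hSf.union hSf.inv
  have : ({y | ∃ t, (t ∈ S ∨ t⁻¹ ∈ S) ∧ ¬ (y ∈ W ↔ t * y ∈ W)} : Set G) ⊆
      ⋃ t ∈ ({t | t ∈ S ∨ t⁻¹ ∈ S} : Set G), {y | ¬ (y ∈ W ↔ t * y ∈ W)} := by
    rintro y ⟨t, ht, hy⟩
    exact Set.mem_biUnion (show t ∈ ({t | t ∈ S ∨ t⁻¹ ∈ S} : Set G) from ht) hy
  exact (hS'.biUnion (fun t _ => hW t)).subset this

/-- If the whole group fixes the end of `c`, there is a homomorphism to `ℤ`. -/
theorem hom_of_fix {S : Set G} (hSf : S.Finite) {A : Set G} {c : G} (h : Cut2 S A c)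
    (hc : ∀ n : ℕ, 0 < n → c ^ n ≠ 1) (hfix : ∀ g, FixTo c g c) :
    ∃ f : G →* Multiplicative ℤ, f c ≠ 1 := by
  let ψ : G →* Equiv.Perm G :=
    { toFun := fun g => Equiv.mulRight g⁻¹
      map_one' := by
        ext x
        simp
      map_mul' := fun g g' => by
        ext x
        simp [mul_assoc] }
  let P : Set G := {h | ∀ y ∈ A, y * h ∈ A}
  have hmem : ∀ g x, x ∈ ψ g '' P ↔ x * g ∈ P := by
    intro g x
    constructor
    · rintro ⟨y, hy, rfl⟩
      show y * g⁻¹ * g ∈ P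
      rwa [inv_mul_cancel_right]
    · intro hx
      exact ⟨x * g, hx, by show x * g * g⁻¹ = x; rw [mul_inv_cancel_right]⟩
  obtain ⟨y0, hy0⟩ := h.good'.ne
  obtain ⟨n1, hn1⟩ := h.good.exhaust hc 1
  have hEA : EvIn c 1 A := by
    refine ⟨n1, fun n hn => ?_⟩
    have := hn1 n hn
    rw [one_mul] at this
    rwa [mul_one]
  have hfin : ∀ g, (P \ (ψ g '' P)).Finite := by
    intro g
    have hW : AI (rtr A g) := h.good.ai.rtr g
    have hEW : EvIn c 1 (rtr A g) := by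
      rw [evIn_rtr, one_mul]
      exact hfix g A h.good.ai hEA
    have hD := bd_finite hSf hW
    have hT : (⋃ y ∈ ({y | ∃ t, (t ∈ S ∨ t⁻¹ ∈ S) ∧ ¬ (y ∈ rtr A g ↔ t * y ∈ rtr A g)} : Set G),
        (fun x => y0 * x⁻¹) ⁻¹' {z | ¬ (z ∈ A ↔ (y * y0⁻¹) * z ∈ A)}).Finite := by
      refine hD.biUnion (fun y _ => ?_)
      refine (h.good.ai (y * y0⁻¹)).preimage (f := fun x => y0 * x⁻¹) ?_
      intro a _ b _ hab
      exact inv_injective (mul_left_cancel hab)
    refine hT.subset ?_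
    rintro x ⟨hx1, hx2⟩
    rw [hmem] at hx2
    -- `x ∈ P`, `x * g ∉ P`
    have hx2' : ∃ a ∈ A, a * x ∉ rtr A g := by
      by_contra hcon
      push Not at hcon
      apply hx2
      intro y hy
      have := hcon y hy
      rw [← mul_assoc]
      exact this
    obtain ⟨a, ha, hax⟩ := hx2'
    have hdy : ∃ y ∈ ({y | ∃ t, (t ∈ S ∨ t⁻¹ ∈ S) ∧
        ¬ (y ∈ rtr A g ↔ t * y ∈ rtr A g)} : Set G), y * x⁻¹ ∈ A := by
      by_contra hcon
      push Not at hcon
      have hconst : ∀ a' ∈ A, a' * x ∉ rtr A g := by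
        intro a' ha'
        have h1 := h.conn a ha a' ha'
        induction h1 with
        | refl => exact hax
        | @tail u v _ huv ih =>
          obtain ⟨hu, hv, t, ht, rfl⟩ := huv
          have h2 := ih hu
          intro h3
          apply hcon (u * x)
          · refine ⟨t, ht, ?_⟩
            rw [mul_assoc] at h3
            tauto
          · rwa [mul_inv_cancel_right]
      obtain ⟨n2, hn2⟩ := hfix x _ hW hEW
      obtain ⟨n3, hn3⟩ := hEA
      have h4 := hn3 (max n2 n3) (le_max_right _ _)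
      rw [mul_one] at h4
      exact hconst _ h4 (hn2 (max n2 n3) (le_max_left _ _))
    obtain ⟨y, hy, hyx⟩ := hdy
    refine Set.mem_biUnion hy ?_
    show ¬ (y0 * x⁻¹ ∈ A ↔ y * y0⁻¹ * (y0 * x⁻¹) ∈ A)
    have h5 : y * y0⁻¹ * (y0 * x⁻¹) = y * x⁻¹ := by group
    rw [h5]
    have h6 : y0 * x⁻¹ ∉ A := by
      intro h6
      have := hx1 _ h6
      rw [inv_mul_cancel_right] at this
      exact hy0 this
    tauto
  obtain ⟨f, hf⟩ := exists_transfer ψ P hfin
  refine ⟨f, ?_⟩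
  rw [hf]
  intro h1
  have h2 : ind P (ψ c '' P) = 0 := h1
  have h3 : P \ (ψ c '' P) = ∅ := by
    rw [Set.sdiff_eq_empty]
    intro x hx
    rw [hmem]
    intro y hy
    rw [← mul_assoc]
    exact h.good.sub _ (hx y hy)
  unfold ind at h2
  rw [h3, Set.ncard_empty] at h2
  have h4 : ((ψ c '' P) \ P).ncard = 0 := by omega
  have hfin2 : ((ψ c '' P) \ P).Finite := by
    have h5 := (hfin c⁻¹).image (ψ c)
    rw [Set.image_sdiff (ψ c).injective, ← Set.image_comp] at h5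
    have h6 : (ψ c ∘ ψ c⁻¹ : G → G) = id := by
      funext x
      simp
    rwa [h6, Set.image_id] at h5
  rw [Set.ncard_eq_zero hfin2, Set.sdiff_eq_empty] at h4
  have h7 : c⁻¹ ∈ P := h4 ((hmem c c⁻¹).2 (by
    intro y hy
    rwa [inv_mul_cancel, mul_one]))
  have h8 : ∀ n : ℕ, ∀ y ∈ A, y * c⁻¹ ^ n ∈ A := by
    intro n
    induction n with
    | zero =>
      intro y hy
      rwa [pow_zero, mul_one]
    | succ n ih =>
      intro y hy
      rw [pow_succ, ← mul_assoc]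
      exact h7 _ (ih y hy)
  obtain ⟨y, hy⟩ := h.good.ne
  obtain ⟨n0, hn0⟩ := h.good'.exhaust (inv_pow_ne hc) y
  exact hn0 n0 le_rfl (h8 n0 y hy)

/-- If a positive power of `c` is central, there is a homomorphism to `ℤ`. -/
theorem hom_of_central {S : Set G} {A : Set G} {c : G} (h : Cut2 S A c)
    (hc : ∀ n : ℕ, 0 < n → c ^ n ≠ 1) {p : ℕ} (hp : 0 < p) (hcen : ∀ g, g * c ^ p = c ^ p * g) :
    ∃ f : G →* Multiplicative ℤ, f (c ^ p) ≠ 1 := by
  let ψ : G →* Equiv.Perm G :=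
    { toFun := fun g => Equiv.mulLeft g
      map_one' := by
        ext x
        simp
      map_mul' := fun g g' => by
        ext x
        simp [mul_assoc] }
  have hmem : ∀ g x, x ∈ ψ g '' A ↔ g⁻¹ * x ∈ A := by
    intro g x
    constructor
    · rintro ⟨y, hy, rfl⟩
      show g⁻¹ * (g * y) ∈ A
      rwa [inv_mul_cancel_left]
    · intro hx
      exact ⟨g⁻¹ * x, hx, by show g * (g⁻¹ * x) = x; rw [mul_inv_cancel_left]⟩
  have hfin : ∀ g, (A \ (ψ g '' A)).Finite := by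
    intro g
    refine (h.good.ai g⁻¹).subset ?_
    rintro x ⟨hx1, hx2⟩
    rw [hmem] at hx2
    simp only [Set.mem_ofPred_eq]
    tauto
  obtain ⟨f, hf⟩ := exists_transfer ψ A hfin
  refine ⟨f, ?_⟩
  rw [hf]
  intro h1
  have h2 : ind A (ψ (c ^ p) '' A) = 0 := h1
  have hcen' : ∀ g, (c ^ p)⁻¹ * g = g * (c ^ p)⁻¹ := by
    intro g
    have := hcen g
    rw [inv_mul_eq_iff_eq_mul, ← mul_assoc, ← this, mul_inv_cancel_right]
  have h3 : (ψ (c ^ p) '' A) \ A = ∅ := by
    rw [Set.sdiff_eq_empty]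
    intro x hx
    rw [hmem, hcen'] at hx
    have := h.good.sub_pow hx p
    rwa [inv_mul_cancel_right] at this
  unfold ind at h2
  rw [h3, Set.ncard_empty] at h2
  have h4 : (A \ (ψ (c ^ p) '' A)).ncard = 0 := by omega
  rw [Set.ncard_eq_zero (hfin _), Set.sdiff_eq_empty] at h4
  have h8 : ∀ n : ℕ, ∀ y ∈ A, y * c⁻¹ ^ (p * n) ∈ A := by
    intro n
    induction n with
    | zero =>
      intro y hy
      rwa [mul_zero, pow_zero, mul_one]
    | succ n ih =>
      intro y hy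
      have h9 := (hmem _ _).1 (h4 (ih y hy))
      rw [hcen', mul_assoc, ← inv_pow, ← pow_add] at h9
      exact h9
  obtain ⟨y, hy⟩ := h.good.ne
  obtain ⟨n0, hn0⟩ := h.good'.exhaust (inv_pow_ne hc) y
  exact hn0 (p * n0) (Nat.le_mul_of_pos_left n0 hp) (h8 n0 y hy)

end Pool.Agent.Lib.H31.Ends
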